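import Pool.Agent.H186.KS.Spec

/-!
# The abstract second moment potential for Client in a Waiter-Client game
-/

set_option autoImplicit false
set_option linter.unusedSectionVars false

open Finset

namespace Pool.Agent.H186.KS.Abs

open Pool.Agent.Y117.SG Pool.Agent.H186.KS

section

variable {Ω C : Type} [Fintype Ω] [DecidableEq C]

/-- The weight of `σ`. -/
noncomputable def V (a : C → Ω → ℝ) (Q : ℝ) (X Y : Finset C) (σ : Ω) : ℝ :=
  (∏ c ∈ Y, (1 + a c σ)) * Real.exp ((∑ c ∈ X, a c σ) / Q)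

/-- The total weight. -/
noncomputable def Z (a : C → Ω → ℝ) (Q : ℝ) (X Y : Finset C) : ℝ := ∑ σ, V a Q X Y σ

/-- The second moment potential. -/
noncomputable def Ps (a : C → Ω → ℝ) (Q M : ℝ) (X0 X Y : Finset C) : ℝ :=
  ∑ σ, ∑ τ, V a Q X Y σ * V a Q X Y τ *
    ((1 + (Kr a X0 σ τ / M) ^ 2) * Real.exp (Kr a X σ τ / Q))

/-- Positive semidefinite kernels. -/
def PSD (F : Ω → Ω → ℝ) : Prop := ∀ v : Ω → ℝ, 0 ≤ ∑ σ, ∑ τ, v σ * v τ * F σ τ

lemma psd_one : PSD (fun _ _ : Ω => (1 : ℝ)) := by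
  intro v
  have : ∑ σ, ∑ τ, v σ * v τ * (1 : ℝ) = (∑ σ, v σ) ^ 2 := by
    rw [sq, Finset.sum_mul_sum]
    simp
  rw [this]
  exact sq_nonneg _

lemma sum_Kr (a : C → Ω → ℝ) (X : Finset C) (v : Ω → ℝ) (F : Ω → Ω → ℝ) :
    ∑ σ, ∑ τ, v σ * v τ * (F σ τ * Kr a X σ τ) =
      ∑ c ∈ X, ∑ σ, ∑ τ, (v σ * a c σ) * (v τ * a c τ) * F σ τ := by
  rw [Finset.sum_comm]
  rw [Finset.sum_congr rfl (fun (τ : Ω) _ => by
    rw [Finset.sum_congr rfl (fun (σ : Ω) _ => by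
      rw [Kr, Finset.mul_sum, Finset.mul_sum])])]
  rw [Finset.sum_congr rfl (fun (τ : Ω) _ => Finset.sum_comm)]
  rw [Finset.sum_comm]
  refine Finset.sum_congr rfl (fun c _ => ?_)
  rw [Finset.sum_comm]
  refine Finset.sum_congr rfl (fun σ _ => Finset.sum_congr rfl (fun τ _ => ?_))
  ring

lemma psd_mul_Kr (a : C → Ω → ℝ) (X : Finset C) {F : Ω → Ω → ℝ} (hF : PSD F) :
    PSD (fun σ τ => F σ τ * Kr a X σ τ) := by
  intro v
  rw [sum_Kr]
  exact Finset.sum_nonneg (fun c _ => hF (fun σ => v σ * a c σ))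

lemma V_nonneg (a : C → Ω → ℝ) (Q : ℝ) (X Y : Finset C) (h : ∀ c ∈ Y, ∀ σ, |a c σ| ≤ 1) (σ : Ω) :
    0 ≤ V a Q X Y σ := by
  unfold V
  apply mul_nonneg _ (Real.exp_pos _).le
  apply Finset.prod_nonneg
  intro c hc
  have := (abs_le.1 (h c hc σ)).1
  linarith

lemma V_step (a : C → Ω → ℝ) (Q : ℝ) (X Y B : Finset C) (hB : B ⊆ X) (c : C) (hc : c ∉ Y) (σ : Ω) :
    V a Q (X \ B) (insert c Y) σ =
      V a Q X Y σ * ((1 + a c σ) * Real.exp (-((∑ d ∈ B, a d σ) / Q))) := by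
  unfold V
  rw [Finset.prod_insert hc]
  have h1 : ∑ d ∈ X \ B, a d σ = ∑ d ∈ X, a d σ - ∑ d ∈ B, a d σ := by
    rw [← Finset.sum_sdiff hB]; ring
  rw [h1]
  have h2 : (∑ d ∈ X, a d σ - ∑ d ∈ B, a d σ) / Q = (∑ d ∈ X, a d σ) / Q + -((∑ d ∈ B, a d σ) / Q) := by
    ring
  rw [h2, Real.exp_add]
  ring

lemma Kr_step (a : C → Ω → ℝ) (X B : Finset C) (hB : B ⊆ X) (σ τ : Ω) :
    Kr a (X \ B) σ τ = Kr a X σ τ - Kr a B σ τ := by
  unfold Kr
  rw [← Finset.sum_sdiff hB]; ring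

/-- The average of the total weight. -/
lemma avg_Z (a : C → Ω → ℝ) (q : ℕ) (X Y B : Finset C) (hB : B ⊆ X) (hBc : #B = q + 1)
    (hXY : Disjoint X Y) (haB : ∀ c ∈ B, ∀ σ, |a c σ| ≤ 1) (haY : ∀ c ∈ Y, ∀ σ, |a c σ| ≤ 1) :
    ((q : ℝ) + 1) * (Z a ((q : ℝ) + 1) X Y -
      ∑ σ, V a ((q : ℝ) + 1) X Y σ * ((∑ d ∈ B, a d σ) / ((q : ℝ) + 1)) ^ 2) ≤
      ∑ c ∈ B, Z a ((q : ℝ) + 1) (X \ B) (insert c Y) := by
  have hQ : (0 : ℝ) < (q : ℝ) + 1 := by positivity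
  set Q : ℝ := (q : ℝ) + 1 with hQd
  have hBQ : (#B : ℝ) = Q := by rw [hBc, hQd]; push_cast; ring
  have h1 : ∑ c ∈ B, Z a Q (X \ B) (insert c Y) =
      ∑ σ, ∑ c ∈ B, V a Q (X \ B) (insert c Y) σ := by
    unfold Z
    rw [Finset.sum_comm]
  rw [h1]
  unfold Z
  rw [← Finset.sum_sub_distrib, Finset.mul_sum]
  apply Finset.sum_le_sum
  intro σ _
  have hcY : ∀ c ∈ B, c ∉ Y := fun c hc => Finset.disjoint_left.1 hXY (hB hc)
  rw [Finset.sum_congr rfl (fun c hc => V_step a Q X Y B hB c (hcY c hc) σ)]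
  rw [← Finset.mul_sum, ← Finset.sum_mul]
  have h2 : ∑ c ∈ B, (1 + a c σ) = Q * (1 + (∑ d ∈ B, a d σ) / Q) := by
    rw [Finset.sum_add_distrib, Finset.sum_const, nsmul_eq_mul, mul_one, hBQ]
    field_simp
  rw [h2]
  set b : ℝ := (∑ d ∈ B, a d σ) / Q with hb
  have hb1 : -1 ≤ b := by
    rw [hb, le_div_iff₀ hQ]
    have h3 : ∑ d ∈ B, (-1 : ℝ) ≤ ∑ d ∈ B, a d σ :=
      Finset.sum_le_sum (fun d hd => (abs_le.1 (haB d hd σ)).1)
    rw [Finset.sum_const, nsmul_eq_mul, hBQ] at h3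
    linarith
  have h4 : 1 - b ^ 2 ≤ (1 + b) * Real.exp (-b) := by
    have h5 : 1 - b ≤ Real.exp (-b) := by
      have := Real.add_one_le_exp (-b)
      linarith
    have h6 : (1 + b) * (1 - b) ≤ (1 + b) * Real.exp (-b) :=
      mul_le_mul_of_nonneg_left h5 (by linarith)
    nlinarith
  have hV := V_nonneg a Q X Y haY σ
  have h7 : V a Q X Y σ * (1 - b ^ 2) ≤ V a Q X Y σ * ((1 + b) * Real.exp (-b)) :=
    mul_le_mul_of_nonneg_left h4 hV
  have h8 : Q * (V a Q X Y σ * (1 - b ^ 2)) ≤ Q * (V a Q X Y σ * ((1 + b) * Real.exp (-b))) :=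
    mul_le_mul_of_nonneg_left h7 hQ.le
  calc Q * (V a Q X Y σ - V a Q X Y σ * b ^ 2) = Q * (V a Q X Y σ * (1 - b ^ 2)) := by ring
    _ ≤ Q * (V a Q X Y σ * ((1 + b) * Real.exp (-b))) := h8
    _ = V a Q X Y σ * (Q * (1 + b) * Real.exp (-b)) := by ring

/-- The average of the second moment potential. -/
lemma avg_Ps (a : C → Ω → ℝ) (q : ℕ) (M : ℝ) (X0 X Y B : Finset C) (hB : B ⊆ X) (hBc : #B = q + 1)
    (hXY : Disjoint X Y) (haY : ∀ c ∈ Y, ∀ σ, |a c σ| ≤ 1) :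
    ∑ c ∈ B, Ps a ((q : ℝ) + 1) M X0 (X \ B) (insert c Y) ≤
      ((q : ℝ) + 1) * Ps a ((q : ℝ) + 1) M X0 X Y := by
  have hQ : (0 : ℝ) < (q : ℝ) + 1 := by positivity
  set Q : ℝ := (q : ℝ) + 1 with hQd
  have hBQ : (#B : ℝ) = Q := by rw [hBc, hQd]; push_cast; ring
  have hcY : ∀ c ∈ B, c ∉ Y := fun c hc => Finset.disjoint_left.1 hXY (hB hc)
  unfold Ps
  rw [Finset.sum_comm, Finset.mul_sum]
  apply Finset.sum_le_sum
  intro σ _
  rw [Finset.sum_comm, Finset.mul_sum]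
  apply Finset.sum_le_sum
  intro τ _
  rw [Finset.sum_congr rfl (fun c hc => by
    rw [V_step a Q X Y B hB c (hcY c hc) σ, V_step a Q X Y B hB c (hcY c hc) τ, Kr_step a X B hB σ τ])]
  set s : ℝ := (∑ d ∈ B, a d σ) / Q with hs
  set t : ℝ := (∑ d ∈ B, a d τ) / Q with ht
  set u : ℝ := Kr a B σ τ / Q with hu
  set W : ℝ := 1 + (Kr a X0 σ τ / M) ^ 2 with hW
  have hW0 : 0 ≤ W := by positivity
  have h1 : ∑ c ∈ B, (1 + a c σ) * (1 + a c τ) = Q * (1 + s + t + u) := by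
    have h2 : ∀ c ∈ B, (1 + a c σ) * (1 + a c τ) = 1 + a c σ + a c τ + a c σ * a c τ := by
      intro c _; ring
    rw [Finset.sum_congr rfl h2, Finset.sum_add_distrib, Finset.sum_add_distrib,
      Finset.sum_add_distrib, Finset.sum_const, nsmul_eq_mul, mul_one, hBQ, hs, ht, hu, Kr]
    field_simp
  have h3 : ∀ c ∈ B, V a Q X Y σ * ((1 + a c σ) * Real.exp (-s)) *
        (V a Q X Y τ * ((1 + a c τ) * Real.exp (-t))) *
        (W * Real.exp ((Kr a X σ τ - Kr a B σ τ) / Q)) =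
      (V a Q X Y σ * V a Q X Y τ * (W * Real.exp (Kr a X σ τ / Q)) *
        Real.exp (-(s + t + u))) * ((1 + a c σ) * (1 + a c τ)) := by
    intro c _
    have h4 : (Kr a X σ τ - Kr a B σ τ) / Q = Kr a X σ τ / Q + -u := by rw [hu]; ring
    have h5 : -(s + t + u) = -s + -t + -u := by ring
    rw [h4, h5, Real.exp_add, Real.exp_add, Real.exp_add]
    ring
  rw [Finset.sum_congr rfl h3, ← Finset.mul_sum, h1]
  have h6 : 1 + s + t + u ≤ Real.exp (s + t + u) := by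
    have := Real.add_one_le_exp (s + t + u)
    linarith
  have h7 : Real.exp (-(s + t + u)) * (1 + s + t + u) ≤ 1 := by
    calc Real.exp (-(s + t + u)) * (1 + s + t + u)
        ≤ Real.exp (-(s + t + u)) * Real.exp (s + t + u) :=
          mul_le_mul_of_nonneg_left h6 (Real.exp_pos _).le
      _ = 1 := by rw [← Real.exp_add, neg_add_cancel, Real.exp_zero]
  have hP : 0 ≤ V a Q X Y σ * V a Q X Y τ * (W * Real.exp (Kr a X σ τ / Q)) := by
    have := V_nonneg a Q X Y haY σ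
    have := V_nonneg a Q X Y haY τ
    positivity
  calc V a Q X Y σ * V a Q X Y τ * (W * Real.exp (Kr a X σ τ / Q)) * Real.exp (-(s + t + u)) *
        (Q * (1 + s + t + u))
      = Q * ((V a Q X Y σ * V a Q X Y τ * (W * Real.exp (Kr a X σ τ / Q))) *
          (Real.exp (-(s + t + u)) * (1 + s + t + u))) := by ring
    _ ≤ Q * ((V a Q X Y σ * V a Q X Y τ * (W * Real.exp (Kr a X σ τ / Q))) * 1) :=
        mul_le_mul_of_nonneg_left (mul_le_mul_of_nonneg_left h7 hP) hQ.le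
    _ = _ := by ring

/-- `M² Z² + ∑ V V' K₀² ≤ M² Ψ`. -/
lemma Ps_lower (a : C → Ω → ℝ) (Q M : ℝ) (hQ : 0 < Q) (hM : 0 < M) (X0 X Y : Finset C)
    (haY : ∀ c ∈ Y, ∀ σ, |a c σ| ≤ 1) :
    M ^ 2 * Z a Q X Y ^ 2 + ∑ σ, ∑ τ, V a Q X Y σ * V a Q X Y τ * Kr a X0 σ τ ^ 2 ≤
      M ^ 2 * Ps a Q M X0 X Y := by
  have h1 : PSD (fun σ τ : Ω => (1 : ℝ) * Kr a X σ τ) := psd_mul_Kr a X psd_one
  have h2 : PSD (fun σ τ : Ω => (((1 : ℝ) * Kr a X0 σ τ) * Kr a X0 σ τ) * Kr a X σ τ) :=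
    psd_mul_Kr a X (psd_mul_Kr a X0 (psd_mul_Kr a X0 psd_one))
  have h1' := h1 (V a Q X Y)
  have h2' := h2 (V a Q X Y)
  have h3 : M ^ 2 * Z a Q X Y ^ 2 + ∑ σ, ∑ τ, V a Q X Y σ * V a Q X Y τ * Kr a X0 σ τ ^ 2 =
      ∑ σ, ∑ τ, V a Q X Y σ * V a Q X Y τ * (M ^ 2 + Kr a X0 σ τ ^ 2) := by
    have h4 : Z a Q X Y ^ 2 = ∑ σ, ∑ τ, V a Q X Y σ * V a Q X Y τ := by
      rw [sq, Z, Finset.sum_mul_sum]
    rw [h4, Finset.mul_sum, ← Finset.sum_add_distrib]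
    refine Finset.sum_congr rfl (fun σ _ => ?_)
    rw [Finset.mul_sum, ← Finset.sum_add_distrib]
    refine Finset.sum_congr rfl (fun τ _ => ?_)
    ring
  have h5 : M ^ 2 * Ps a Q M X0 X Y =
      ∑ σ, ∑ τ, V a Q X Y σ * V a Q X Y τ * ((M ^ 2 + Kr a X0 σ τ ^ 2) * Real.exp (Kr a X σ τ / Q)) := by
    unfold Ps
    rw [Finset.mul_sum]
    refine Finset.sum_congr rfl (fun σ _ => ?_)
    rw [Finset.mul_sum]
    refine Finset.sum_congr rfl (fun τ _ => ?_)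
    have : M ≠ 0 := hM.ne'
    field_simp
  rw [h3, h5]
  have h6 : ∑ σ, ∑ τ, V a Q X Y σ * V a Q X Y τ * ((M ^ 2 + Kr a X0 σ τ ^ 2) * (1 + Kr a X σ τ / Q)) =
      ∑ σ, ∑ τ, V a Q X Y σ * V a Q X Y τ * (M ^ 2 + Kr a X0 σ τ ^ 2) +
      (M ^ 2 / Q * ∑ σ, ∑ τ, V a Q X Y σ * V a Q X Y τ * ((1 : ℝ) * Kr a X σ τ) +
      1 / Q * ∑ σ, ∑ τ, V a Q X Y σ * V a Q X Y τ *
        ((((1 : ℝ) * Kr a X0 σ τ) * Kr a X0 σ τ) * Kr a X σ τ)) := by
    rw [Finset.mul_sum, Finset.mul_sum, ← Finset.sum_add_distrib, ← Finset.sum_add_distrib]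
    refine Finset.sum_congr rfl (fun σ _ => ?_)
    rw [Finset.mul_sum, Finset.mul_sum, ← Finset.sum_add_distrib, ← Finset.sum_add_distrib]
    refine Finset.sum_congr rfl (fun τ _ => ?_)
    ring
  have h7 : ∑ σ, ∑ τ, V a Q X Y σ * V a Q X Y τ * (M ^ 2 + Kr a X0 σ τ ^ 2) ≤
      ∑ σ, ∑ τ, V a Q X Y σ * V a Q X Y τ * ((M ^ 2 + Kr a X0 σ τ ^ 2) * (1 + Kr a X σ τ / Q)) := by
    rw [h6]
    have e1 : 0 ≤ M ^ 2 / Q := by positivity
    have e2 : 0 ≤ 1 / Q := by positivity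
    have := mul_nonneg e1 h1'
    have := mul_nonneg e2 h2'
    linarith
  refine h7.trans ?_
  refine Finset.sum_le_sum (fun σ _ => Finset.sum_le_sum (fun τ _ => ?_))
  have hσ := V_nonneg a Q X Y haY σ
  have hτ := V_nonneg a Q X Y haY τ
  apply mul_le_mul_of_nonneg_left _ (mul_nonneg hσ hτ)
  apply mul_le_mul_of_nonneg_left _ (by positivity)
  have := Real.add_one_le_exp (Kr a X σ τ / Q)
  linarith

/-- The Cauchy-Schwarz estimate: `Q² (∑ V b²)² ≤ ∑ V V' K₀²`. -/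
lemma B2_bound (a : C → Ω → ℝ) (q : ℕ) (X0 X Y B : Finset C) (hB : B ⊆ X0) (hBc : #B = q + 1)
    (haY : ∀ c ∈ Y, ∀ σ, |a c σ| ≤ 1) :
    (((q : ℝ) + 1) * ∑ σ, V a ((q : ℝ) + 1) X Y σ * ((∑ d ∈ B, a d σ) / ((q : ℝ) + 1)) ^ 2) ^ 2 ≤
      ∑ σ, ∑ τ, V a ((q : ℝ) + 1) X Y σ * V a ((q : ℝ) + 1) X Y τ * Kr a X0 σ τ ^ 2 := by
  have hQ : (0 : ℝ) < (q : ℝ) + 1 := by positivity
  set Q : ℝ := (q : ℝ) + 1 with hQd
  have hBQ : (#B : ℝ) = Q := by rw [hBc, hQd]; push_cast; ring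
  have hV := V_nonneg a Q X Y haY
  set b : Ω → ℝ := fun σ => (∑ d ∈ B, a d σ) / Q with hb
  set P : ℝ := ∑ σ, V a Q X Y σ * b σ ^ 2 with hP
  set S : ℝ := ∑ σ, ∑ τ, V a Q X Y σ * V a Q X Y τ * Kr a X0 σ τ ^ 2 with hS
  have hP0 : 0 ≤ P := Finset.sum_nonneg (fun σ _ => mul_nonneg (hV σ) (sq_nonneg _))
  have hS0 : 0 ≤ S := Finset.sum_nonneg (fun σ _ => Finset.sum_nonneg (fun τ _ =>
    mul_nonneg (mul_nonneg (hV σ) (hV τ)) (sq_nonneg _)))
  -- first Cauchy-Schwarz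
  set x : C → ℝ := fun c => ∑ σ, (V a Q X Y σ * b σ) * a c σ with hx
  have h1 : Q * P = ∑ c ∈ B, x c := by
    rw [hx, Finset.sum_comm, hP, Finset.mul_sum]
    refine Finset.sum_congr rfl (fun σ _ => ?_)
    rw [← Finset.mul_sum]
    have h2 : ∑ c ∈ B, a c σ = Q * b σ := by rw [hb]; field_simp
    rw [h2]; ring
  have h3 : (Q * P) ^ 2 ≤ Q * ∑ c ∈ B, x c ^ 2 := by
    rw [h1, ← hBQ]
    exact sq_sum_le_card_mul_sum_sq
  have h4 : ∑ c ∈ B, x c ^ 2 ≤ ∑ c ∈ X0, x c ^ 2 :=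
    Finset.sum_le_sum_of_subset_of_nonneg hB (fun c _ _ => sq_nonneg _)
  set R : ℝ := ∑ σ, ∑ τ, (V a Q X Y σ * b σ) * (V a Q X Y τ * b τ) * Kr a X0 σ τ with hR
  have h5 : ∑ c ∈ X0, x c ^ 2 = R := by
    have h6 := sum_Kr a X0 (fun σ => V a Q X Y σ * b σ) (fun _ _ => (1 : ℝ))
    simp only [one_mul, mul_one] at h6
    rw [hR, h6]
    refine Finset.sum_congr rfl (fun c _ => ?_)
    rw [hx, sq, Finset.sum_mul_sum]
  -- second Cauchy-Schwarz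
  have h7 : R ^ 2 ≤ P ^ 2 * S := by
    have h8 : R = ∑ p : Ω × Ω, (Real.sqrt (V a Q X Y p.1 * V a Q X Y p.2) * (b p.1 * b p.2)) *
        (Real.sqrt (V a Q X Y p.1 * V a Q X Y p.2) * Kr a X0 p.1 p.2) := by
      rw [hR, Fintype.sum_prod_type]
      refine Finset.sum_congr rfl (fun σ _ => Finset.sum_congr rfl (fun τ _ => ?_))
      have h9 := Real.mul_self_sqrt (mul_nonneg (hV σ) (hV τ))
      calc (V a Q X Y σ * b σ) * (V a Q X Y τ * b τ) * Kr a X0 σ τ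
          = (V a Q X Y σ * V a Q X Y τ) * (b σ * b τ * Kr a X0 σ τ) := by ring
        _ = (Real.sqrt (V a Q X Y σ * V a Q X Y τ) * Real.sqrt (V a Q X Y σ * V a Q X Y τ)) *
              (b σ * b τ * Kr a X0 σ τ) := by rw [h9]
        _ = _ := by ring
    rw [h8]
    refine (Finset.sum_mul_sq_le_sq_mul_sq _ _ _).trans ?_
    apply le_of_eq
    congr 1
    · rw [sq, hP, Finset.sum_mul_sum, Fintype.sum_prod_type]
      refine Finset.sum_congr rfl (fun σ _ => Finset.sum_congr rfl (fun τ _ => ?_))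
      rw [mul_pow, Real.sq_sqrt (mul_nonneg (hV σ) (hV τ))]
      ring
    · rw [hS, Fintype.sum_prod_type]
      refine Finset.sum_congr rfl (fun σ _ => Finset.sum_congr rfl (fun τ _ => ?_))
      rw [mul_pow, Real.sq_sqrt (mul_nonneg (hV σ) (hV τ))]
  -- conclusion
  have h10 : (Q * P) ^ 2 ≤ Q * R := by
    refine h3.trans ?_
    apply mul_le_mul_of_nonneg_left _ hQ.le
    rw [← h5]; exact h4
  rcases hP0.eq_or_lt with hP1 | hP1
  · rw [← hP1]; simpa using hS0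
  · have hR0 : 0 ≤ R := by
      have : 0 ≤ Q * R := (sq_nonneg _).trans h10
      exact nonneg_of_mul_nonneg_right this hQ
    have h11 : ((Q * P) ^ 2) ^ 2 ≤ (Q * R) ^ 2 := pow_le_pow_left₀ (sq_nonneg _) h10 2
    have h12 : (Q * R) ^ 2 ≤ Q ^ 2 * (P ^ 2 * S) := by
      rw [mul_pow]
      exact mul_le_mul_of_nonneg_left h7 (sq_nonneg _)
    have h13 : (Q * P) ^ 2 * (Q * P) ^ 2 ≤ (Q * P) ^ 2 * S := by
      calc (Q * P) ^ 2 * (Q * P) ^ 2 = ((Q * P) ^ 2) ^ 2 := by ring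
        _ ≤ (Q * R) ^ 2 := h11
        _ ≤ Q ^ 2 * (P ^ 2 * S) := h12
        _ = (Q * P) ^ 2 * S := by ring
    exact le_of_mul_le_mul_left h13 (by positivity)

/-- One round. -/
lemma round_step (a : C → Ω → ℝ) (q : ℕ) (M D l : ℝ) (hM : 0 < M) (X0 X Y B : Finset C) (hX : X ⊆ X0)
    (hY : Y ⊆ X0) (hB : B ⊆ X) (hBc : #B = q + 1) (hXY : Disjoint X Y)
    (ha : ∀ c ∈ X0, ∀ σ, |a c σ| ≤ 1) (hD : 0 ≤ D) (hl : M / ((q : ℝ) + 1) * Real.sqrt D ≤ l)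
    (hl2 : 2 * l < 1) (hZ : 0 < Z a ((q : ℝ) + 1) X Y)
    (hPs : Ps a ((q : ℝ) + 1) M X0 X Y ≤ D * Z a ((q : ℝ) + 1) X Y ^ 2) :
    ∃ c ∈ B, 0 < Z a ((q : ℝ) + 1) (X \ B) (insert c Y) ∧
      Ps a ((q : ℝ) + 1) M X0 (X \ B) (insert c Y) ≤
        D / (1 - 2 * l) * Z a ((q : ℝ) + 1) (X \ B) (insert c Y) ^ 2 := by
  have hQ : (0 : ℝ) < (q : ℝ) + 1 := by positivity
  set Q : ℝ := (q : ℝ) + 1 with hQd
  have hBQ : (#B : ℝ) = Q := by rw [hBc, hQd]; push_cast; ring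
  have haY : ∀ c ∈ Y, ∀ σ, |a c σ| ≤ 1 := fun c hc => ha c (hY hc)
  have haB : ∀ c ∈ B, ∀ σ, |a c σ| ≤ 1 := fun c hc => ha c (hX (hB hc))
  have h1 := avg_Z a q X Y B hB hBc hXY haB haY
  have h2 := avg_Ps a q M X0 X Y B hB hBc hXY haY
  have h3 := Ps_lower a Q M hQ hM X0 X Y haY
  have h4 := B2_bound a q X0 X Y B (hB.trans hX) hBc haY
  rw [← hQd] at h1 h2 h4
  set z : ℝ := Z a Q X Y with hz
  set p : ℝ := Ps a Q M X0 X Y with hp
  set S : ℝ := ∑ σ, ∑ τ, V a Q X Y σ * V a Q X Y τ * Kr a X0 σ τ ^ 2 with hS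
  set P : ℝ := ∑ σ, V a Q X Y σ * ((∑ d ∈ B, a d σ) / Q) ^ 2 with hP
  have hV := V_nonneg a Q X Y haY
  have hP0 : 0 ≤ P := Finset.sum_nonneg (fun σ _ => mul_nonneg (hV σ) (sq_nonneg _))
  have hS0 : 0 ≤ S := Finset.sum_nonneg (fun σ _ => Finset.sum_nonneg (fun τ _ =>
    mul_nonneg (mul_nonneg (hV σ) (hV τ)) (sq_nonneg _)))
  -- `p > 0`
  have hp0 : 0 < p := by
    have e1 : M ^ 2 * z ^ 2 ≤ M ^ 2 * p := by linarith
    have e2 : z ^ 2 ≤ p := le_of_mul_le_mul_left e1 (by positivity)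
    have e3 : 0 < z ^ 2 := by positivity
    linarith
  -- `P ≤ l z`
  have hPl : P ≤ l * z := by
    have e1 : (Q * P) ^ 2 ≤ M ^ 2 * (D * z ^ 2) := by
      have e2 : M ^ 2 * p ≤ M ^ 2 * (D * z ^ 2) := mul_le_mul_of_nonneg_left hPs (by positivity)
      have e3 : 0 ≤ M ^ 2 * z ^ 2 := by positivity
      linarith
    have e4 : M ^ 2 * (D * z ^ 2) = (M * Real.sqrt D * z) ^ 2 := by
      rw [mul_pow, mul_pow, Real.sq_sqrt hD]; ring
    rw [e4] at e1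
    have e5 : Q * P ≤ M * Real.sqrt D * z :=
      le_of_sq_le_sq e1 (by positivity)
    have e6 : P ≤ M / Q * Real.sqrt D * z := by
      have e7 : M / Q * Real.sqrt D * z = (M * Real.sqrt D * z) / Q := by ring
      rw [e7, le_div_iff₀ hQ]
      linarith
    exact e6.trans (mul_le_mul_of_nonneg_right hl hZ.le)
  set β : ℝ := 1 - 2 * l with hβ
  have hβ0 : 0 < β := by rw [hβ]; linarith
  -- choice of the element
  have hsum : Q * β ≤ ∑ c ∈ B, (2 * Z a Q (X \ B) (insert c Y) / z - Ps a Q M X0 (X \ B) (insert c Y) / p) := by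
    rw [Finset.sum_sub_distrib, ← Finset.sum_div, ← Finset.sum_div, ← Finset.mul_sum]
    have e1 : 2 * (Q * (1 - l)) ≤ 2 * ∑ c ∈ B, Z a Q (X \ B) (insert c Y) / z := by
      rw [← Finset.sum_div]
      apply mul_le_mul_of_nonneg_left _ (by norm_num)
      rw [le_div_iff₀ hZ]
      calc Q * (1 - l) * z = Q * (z - l * z) := by ring
        _ ≤ Q * (z - P) := mul_le_mul_of_nonneg_left (by linarith) hQ.le
        _ ≤ _ := h1
    have e2 : (∑ c ∈ B, Ps a Q M X0 (X \ B) (insert c Y)) / p ≤ Q := by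
      rw [div_le_iff₀ hp0]; exact h2
    rw [← Finset.sum_div] at e1
    have e3 : 2 * ((∑ c ∈ B, Z a Q (X \ B) (insert c Y)) / z) =
        2 * (∑ c ∈ B, Z a Q (X \ B) (insert c Y)) / z := by ring
    rw [e3] at e1
    have e4 : Q * β = 2 * (Q * (1 - l)) - Q := by rw [hβ]; ring
    rw [e4]
    linarith
  have hBne : B.Nonempty := by
    rw [← Finset.card_pos, hBc]; omega
  obtain ⟨c, hc, hcβ⟩ : ∃ c ∈ B, β ≤ 2 * Z a Q (X \ B) (insert c Y) / z -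
      Ps a Q M X0 (X \ B) (insert c Y) / p := by
    apply Finset.exists_le_of_sum_le hBne
    rw [Finset.sum_const, nsmul_eq_mul, hBQ]
    exact hsum
  have hcY : c ∉ Y := Finset.disjoint_left.1 hXY (hB hc)
  have haY' : ∀ d ∈ insert c Y, ∀ σ, |a d σ| ≤ 1 := by
    intro d hd
    rcases Finset.mem_insert.1 hd with h | h
    · rw [h]; exact haB c hc
    · exact haY d h
  set z' : ℝ := Z a Q (X \ B) (insert c Y) with hz'
  set p' : ℝ := Ps a Q M X0 (X \ B) (insert c Y) with hp'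
  have hV' := V_nonneg a Q (X \ B) (insert c Y) haY'
  have hp'0 : 0 ≤ p' := by
    rw [hp']
    unfold Ps
    refine Finset.sum_nonneg (fun σ _ => Finset.sum_nonneg (fun τ _ => ?_))
    have := hV' σ
    have := hV' τ
    positivity
  have hz'0 : 0 < z' := by
    have e1 : 0 ≤ p' / p := div_nonneg hp'0 hp0.le
    have e2 : 0 < 2 * z' / z := by linarith
    rw [div_pos_iff] at e2
    rcases e2 with ⟨e3, _⟩ | ⟨_, e4⟩
    · linarith
    · linarith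
  refine ⟨c, hc, hz'0, ?_⟩
  -- `p' / p ≤ 2 ρ - β`, `ρ = z' / z`
  set ρ : ℝ := z' / z with hρ
  have hρz : z' = ρ * z := by rw [hρ]; field_simp
  have e1 : p' / p ≤ 2 * ρ - β := by
    have : 2 * z' / z = 2 * ρ := by rw [hρ]; ring
    linarith
  have e2 : p' ≤ (2 * ρ - β) * p := by rwa [div_le_iff₀ hp0] at e1
  have e3 : 0 ≤ 2 * ρ - β := (div_nonneg hp'0 hp0.le).trans e1
  have e4 : p' ≤ (2 * ρ - β) * (D * z ^ 2) := e2.trans (mul_le_mul_of_nonneg_left hPs e3)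
  have e5 : (2 * ρ - β) ≤ ρ ^ 2 / β := by
    rw [le_div_iff₀ hβ0]
    nlinarith [sq_nonneg (ρ - β)]
  calc p' ≤ (2 * ρ - β) * (D * z ^ 2) := e4
    _ ≤ (ρ ^ 2 / β) * (D * z ^ 2) := mul_le_mul_of_nonneg_right e5 (by positivity)
    _ = D / β * z' ^ 2 := by rw [hρz]; ring

/-- The induction over the rounds of the game. -/
lemma game_ind (a : C → Ω → ℝ) (q : ℕ) (M D l : ℝ) (hM : 0 < M) (X0 : Finset C)
    (ha : ∀ c ∈ X0, ∀ σ, |a c σ| ≤ 1) (hD : 0 ≤ D) (hl : M / ((q : ℝ) + 1) * Real.sqrt D ≤ l)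
    (hl2 : 2 * l < 1) (hl0 : 0 ≤ l) :
    ∀ X Y : Finset C, Forces (offerWC q) (fun Y => ∀ σ : Ω, ∃ c ∈ Y, a c σ = -1) X Y →
      X ⊆ X0 → Y ⊆ X0 → Disjoint X Y → 0 < Z a ((q : ℝ) + 1) X Y →
      Ps a ((q : ℝ) + 1) M X0 X Y ≤ (D * (1 - 2 * l) ^ (#X / (q + 1))) * Z a ((q : ℝ) + 1) X Y ^ 2 →
      False := by
  intro X Y hF
  induction hF with
  | stop X Y _ hg =>
    intro _ _ _ hZ _
    have : Z a ((q : ℝ) + 1) X Y = 0 := by
      unfold Z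
      apply Finset.sum_eq_zero
      intro σ _
      obtain ⟨c, hc, hc1⟩ := hg σ
      unfold V
      rw [Finset.prod_eq_zero hc (by rw [hc1]; ring), zero_mul]
    linarith
  | round X Y B hB _ ih =>
    intro hX hY hXY hZ hPs
    have hβ0 : 0 < 1 - 2 * l := by linarith
    have hβ1 : 1 - 2 * l ≤ 1 := by linarith
    set t : ℕ := #X / (q + 1) with ht
    have hXc : q + 1 ≤ #X := by rw [← hB.2]; exact Finset.card_le_card hB.1
    have ht1 : 1 ≤ t := (Nat.one_le_div_iff (Nat.succ_pos q)).2 hXc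
    have hcard : #(X \ B) / (q + 1) = t - 1 := by
      rw [Finset.card_sdiff_of_subset hB.1, hB.2, ht,
        Nat.div_eq_sub_div (Nat.succ_pos q) hXc]
      rfl
    have hpow : (1 - 2 * l) ^ t ≤ 1 := pow_le_one₀ hβ0.le hβ1
    have hDt0 : 0 ≤ D * (1 - 2 * l) ^ t := by positivity
    have hDt : D * (1 - 2 * l) ^ t ≤ D := by
      calc D * (1 - 2 * l) ^ t ≤ D * 1 := mul_le_mul_of_nonneg_left hpow hD
        _ = D := mul_one D
    have hl' : M / ((q : ℝ) + 1) * Real.sqrt (D * (1 - 2 * l) ^ t) ≤ l := by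
      refine le_trans ?_ hl
      apply mul_le_mul_of_nonneg_left (Real.sqrt_le_sqrt hDt)
      positivity
    obtain ⟨c, hc, hcZ, hcP⟩ := round_step a q M (D * (1 - 2 * l) ^ t) l hM X0 X Y B hX hY hB.1 hB.2 hXY
      ha hDt0 hl' hl2 hZ hPs
    apply ih c hc (Finset.sdiff_subset.trans hX)
      (Finset.insert_subset_iff.2 ⟨hX (hB.1 hc), hY⟩) ?_ hcZ
    · rw [hcard]
      refine hcP.trans (le_of_eq ?_)
      congr 1
      have h1 : (1 - 2 * l) ^ t = (1 - 2 * l) ^ (t - 1) * (1 - 2 * l) := by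
        rw [← pow_succ]
        congr 1
        omega
      rw [h1]
      field_simp
    · rw [Finset.disjoint_left]
      intro d hd hd'
      rw [Finset.mem_sdiff] at hd
      rcases Finset.mem_insert.1 hd' with h | h
      · rw [h] at hd; exact hd.2 hc
      · exact Finset.disjoint_left.1 hXY hd.1 h

end

theorem s_abs : S_abs := by
  intro Ω C _ _ _ a X q M D ha hsum hM hl hD hF
  have hQ : (0 : ℝ) < (q : ℝ) + 1 := by positivity
  have hΩ : (0 : ℝ) < (Fintype.card Ω : ℝ) := by exact_mod_cast Fintype.card_pos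
  have hD0 : 0 ≤ D := by
    have h1 : 0 ≤ ∑ σ : Ω, ∑ τ : Ω, (1 + (Kr a X σ τ / M) ^ 2) * Real.exp (Kr a X σ τ / ((q : ℝ) + 1)) := by
      refine Finset.sum_nonneg (fun σ _ => Finset.sum_nonneg (fun τ _ => ?_))
      positivity
    have h2 : 0 ≤ D * (Fintype.card Ω : ℝ) ^ 2 := h1.trans hD
    exact nonneg_of_mul_nonneg_left h2 (by positivity)
  by_cases hX : #X < q + 1
  · cases hF with
    | stop _ _ _ hg =>
      obtain ⟨c, hc, _⟩ := hg (Classical.arbitrary Ω)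
      simp at hc
    | round _ _ B hB _ =>
      have := Finset.card_le_card hB.1
      rw [hB.2] at this
      omega
  · rw [not_lt] at hX
    obtain ⟨l, hld⟩ : ∃ l, l = M / ((q : ℝ) + 1) * Real.sqrt (2 * D) := ⟨_, rfl⟩
    have hl0 : 0 ≤ l := by rw [hld]; positivity
    have hXQ : 1 ≤ (#X : ℝ) / ((q : ℝ) + 1) := by
      rw [le_div_iff₀ hQ, one_mul]
      exact_mod_cast hX
    have hl4 : 4 * l * ((#X : ℝ) / ((q : ℝ) + 1)) ≤ 1 := by
      rw [hld]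
      calc 4 * (M / ((q : ℝ) + 1) * Real.sqrt (2 * D)) * ((#X : ℝ) / ((q : ℝ) + 1))
          = 4 * (M / ((q : ℝ) + 1)) * Real.sqrt (2 * D) * ((#X : ℝ) / ((q : ℝ) + 1)) := by ring
        _ ≤ 1 := hl
    have hl1 : 4 * l ≤ 1 := by
      calc 4 * l = 4 * l * 1 := by ring
        _ ≤ 4 * l * ((#X : ℝ) / ((q : ℝ) + 1)) := mul_le_mul_of_nonneg_left hXQ (by positivity)
        _ ≤ 1 := hl4
    have hV : ∀ σ : Ω, V a ((q : ℝ) + 1) X ∅ σ = 1 := by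
      intro σ
      unfold V
      rw [hsum σ]
      simp
    have hZ : Z a ((q : ℝ) + 1) X ∅ = (Fintype.card Ω : ℝ) := by
      unfold Z
      rw [Finset.sum_congr rfl (fun σ _ => hV σ)]
      simp
    have hPs : Ps a ((q : ℝ) + 1) M X X ∅ ≤ D * (Fintype.card Ω : ℝ) ^ 2 := by
      refine le_trans (le_of_eq ?_) hD
      unfold Ps
      refine Finset.sum_congr rfl (fun σ _ => Finset.sum_congr rfl (fun τ _ => ?_))
      rw [hV σ, hV τ]
      ring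
    apply game_ind a q M (2 * D) l hM X ha (by positivity) (le_of_eq hld.symm) (by linarith) hl0 X ∅ hF
      (Finset.Subset.refl _) (Finset.empty_subset _) (Finset.disjoint_empty_right _)
      (by rw [hZ]; exact hΩ)
    rw [hZ]
    refine hPs.trans ?_
    apply mul_le_mul_of_nonneg_right _ (by positivity)
    have h1 : 1 + (#X / (q + 1) : ℕ) * (-(2 * l)) ≤ (1 + -(2 * l)) ^ (#X / (q + 1)) :=
      one_add_mul_le_pow (by linarith) _
    have h2 : ((#X / (q + 1) : ℕ) : ℝ) ≤ (#X : ℝ) / ((q : ℝ) + 1) := by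
      have := @Nat.cast_div_le ℝ _ _ _ #X (q + 1)
      push_cast at this
      exact this
    have h3 : ((#X / (q + 1) : ℕ) : ℝ) * (2 * l) ≤ 1 / 2 := by
      have h4 : ((#X / (q + 1) : ℕ) : ℝ) * (2 * l) ≤ (#X : ℝ) / ((q : ℝ) + 1) * (2 * l) :=
        mul_le_mul_of_nonneg_right h2 (by positivity)
      linarith
    have h5 : (1 : ℝ) / 2 ≤ (1 - 2 * l) ^ (#X / (q + 1)) := by
      have h6 : (1 + -(2 * l)) = 1 - 2 * l := by ring
      rw [h6] at h1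
      linarith
    calc D = 2 * D * (1 / 2) := by ring
      _ ≤ 2 * D * (1 - 2 * l) ^ (#X / (q + 1)) := mul_le_mul_of_nonneg_left h5 (by positivity)

end Pool.Agent.H186.KS.Abs
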