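import Pool.Agent.H186.KS.Spec

/-!
# Project KS (helper186), task B1: bounds for `a_c`
-/

set_option autoImplicit false

open Finset Filter

namespace Pool.Agent.H186.KS.Acb

open Pool.Agent.Y117.SG Pool.Agent.H186.KS

theorem zl_cases {n : ℕ} (α : Fin n → Bool) (l : Fin n × Bool) : zl α l = 1 ∨ zl α l = -1 := by
  unfold zl
  split_ifs
  · right; rfl
  · left; rfl

theorem abs_prod_zl {n : ℕ} (α : Fin n → Bool) (S : Clause n) : |∏ l ∈ S, zl α l| = 1 := by
  rw [Finset.abs_prod]
  apply Finset.prod_eq_one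
  intro l _
  rcases zl_cases α l with h | h <;> rw [h] <;> simp

/-- The number of subsets with at most `r` elements. -/
theorem card_low {n : ℕ} (c : Clause n) (r : ℕ) :
    (#(c.powerset.filter fun S => ¬ r < #S) : ℝ) = ∑ j ∈ range (r + 1), ((#c).choose j : ℝ) := by
  have h1 : (c.powerset.filter fun S => ¬ r < #S) = (range (r + 1)).biUnion fun j => powersetCard j c := by
    ext S
    simp only [mem_filter, mem_powerset, mem_biUnion, mem_range, mem_powersetCard]
    constructor
    · rintro ⟨h1, h2⟩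
      exact ⟨#S, by omega, h1, rfl⟩
    · rintro ⟨j, hj, h1, h2⟩
      exact ⟨h1, by omega⟩
  rw [h1, card_biUnion]
  · push_cast
    exact Finset.sum_congr rfl fun j _ => by rw [card_powersetCard]
  · intro i _ j _ hij
    change Disjoint (powersetCard i c) (powersetCard j c)
    rw [Finset.disjoint_left]
    intro S hS hS'
    rw [mem_powersetCard] at hS hS'
    exact hij (hS.2.symm.trans hS'.2)

/-- **Task B1** -/
theorem s_acb : S_acb := by
  intro n k r hpk c hc α
  have hk : #c = k := by
    unfold board at hc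
    exact (mem_filter.1 hc).2.1
  have h2k : (0 : ℝ) < 2 ^ k := by positivity
  set N : ℝ := ∑ j ∈ range (r + 1), (k.choose j : ℝ) with hN
  have hpkN : pk k r = (1 / 2 ^ k) * N := rfl
  have hN0 : 0 ≤ N := Finset.sum_nonneg fun _ _ => Nat.cast_nonneg _
  have hpk0 : 0 ≤ pk k r := by rw [hpkN]; positivity
  have hNp : N = 2 ^ k * pk k r := by rw [hpkN]; field_simp
  set hi : ℝ := ∑ S ∈ c.powerset with r < #S, ∏ l ∈ S, zl α l with hhi
  set lo : ℝ := ∑ S ∈ c.powerset with ¬ r < #S, ∏ l ∈ S, zl α l with hlo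
  have hhf : hf k r c α = (1 / 2 ^ k) * hi := rfl
  have htot : hi + lo = ∏ l ∈ c, (1 + zl α l) := by
    rw [hhi, hlo, Finset.sum_filter_add_sum_filter_not, Finset.prod_one_add]
  have hlob : |lo| ≤ N := by
    rw [hlo]
    refine (Finset.abs_sum_le_sum_abs _ _).trans ?_
    have h1 : ∑ S ∈ c.powerset with ¬ r < #S, |∏ l ∈ S, zl α l| =
        (#(c.powerset.filter fun S => ¬ r < #S) : ℝ) := by
      rw [Finset.sum_congr rfl fun S _ => abs_prod_zl α S]
      simp
    rw [h1, card_low, hk]
  have h1p : (1 : ℝ) / 2 ≤ 1 - pk k r := by linarith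
  have h1p0 : 0 < 1 - pk k r := by linarith
  have hviol : (∀ l ∈ c, α l.1 ≠ l.2) → ac k r c α = -1 := by
    intro h
    have hz : ∀ l ∈ c, zl α l = 1 := by
      intro l hl
      unfold zl
      rw [if_neg (h l hl)]
    have hlo' : lo = N := by
      rw [hlo]
      have h1 : ∑ S ∈ c.powerset with ¬ r < #S, ∏ l ∈ S, zl α l =
          ∑ S ∈ c.powerset with ¬ r < #S, (1 : ℝ) := by
        refine Finset.sum_congr rfl fun S hS => Finset.prod_eq_one fun l hl => hz l ?_
        exact (mem_powerset.1 (mem_filter.1 hS).1) hl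
      rw [h1, Finset.sum_const, nsmul_eq_mul, mul_one, card_low, hk]
    have htot' : hi + lo = 2 ^ k := by
      rw [htot, Finset.prod_congr rfl fun l hl => by rw [hz l hl]]
      rw [Finset.prod_const, hk]
      norm_num
    have hhi' : hi = 2 ^ k * (1 - pk k r) := by
      rw [mul_sub, mul_one, ← hNp]
      linarith
    unfold ac
    rw [hhf, hhi']
    field_simp
  refine ⟨?_, hviol⟩
  by_cases h : ∀ l ∈ c, α l.1 ≠ l.2
  · rw [hviol h]
    simp
  · push Not at h
    obtain ⟨l, hl, hle⟩ := h
    have htot0 : hi + lo = 0 := by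
      rw [htot]
      apply Finset.prod_eq_zero hl
      unfold zl
      rw [if_pos hle]
      norm_num
    have hhib : |hi| ≤ N := by
      have : hi = -lo := by linarith
      rw [this, abs_neg]
      exact hlob
    unfold ac
    rw [hhf, abs_div, abs_neg, abs_mul, abs_of_pos h1p0, div_le_one h1p0,
      abs_of_pos (by positivity : (0 : ℝ) < 1 / 2 ^ k)]
    calc 1 / 2 ^ k * |hi| ≤ 1 / 2 ^ k * N := by gcongr
      _ = pk k r := hpkN.symm
      _ ≤ 1 - pk k r := by linarith

end Pool.Agent.H186.KS.Acb
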