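import Pool.Agent.H186.KS.Spec

/-! Project KS (helper186), task D2: binomial tail bounds, by helper597. -/

set_option autoImplicit false

namespace Pool.Agent.H186.KS.Bin

open Finset Pool.Agent.H186.KS

theorem term_le (n m : ℕ) (hm : m ≤ n) (x y : ℝ) (hx : 0 ≤ x) (hy : 0 ≤ y) :
    x ^ m * y ^ (n - m) * (n.choose m : ℝ) ≤ (x + y) ^ n := by
  rw [add_pow]
  exact Finset.single_le_sum (f := fun m => x ^ m * y ^ (n - m) * (n.choose m : ℝ))
    (fun i _ => by positivity) (Finset.mem_range.2 (by omega))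

theorem part_a (n m : ℕ) (hn : 0 < n) (hm : m ≤ n) :
    (n.choose m : ℝ) / 2 ^ n ≤ Real.exp (-(n * (|2 * (m : ℝ) - n| / n) ^ 2 / 2)) := by
  have hn0 : (0 : ℝ) < n := by exact_mod_cast hn
  obtain ⟨l, hl⟩ : ∃ l : ℝ, l = (2 * (m : ℝ) - n) / n := ⟨_, rfl⟩
  have h1 := term_le n m hm (Real.exp l) (Real.exp (-l)) (Real.exp_pos _).le (Real.exp_pos _).le
  have h2 : Real.exp l ^ m * Real.exp (-l) ^ (n - m) = Real.exp (n * l ^ 2) := by
    rw [← Real.exp_nat_mul, ← Real.exp_nat_mul, ← Real.exp_add]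
    congr 1
    rw [Nat.cast_sub hm]
    have : (2 * (m : ℝ) - n) = n * l := by
      rw [hl]
      field_simp
    linear_combination l * this
  have h3 : Real.exp l + Real.exp (-l) = 2 * Real.cosh l := by
    rw [Real.cosh_eq]
    ring
  rw [h2, h3] at h1
  have h4 : (2 * Real.cosh l) ^ n ≤ 2 ^ n * Real.exp (n * (l ^ 2 / 2)) := by
    rw [mul_pow]
    apply mul_le_mul_of_nonneg_left _ (by positivity)
    calc Real.cosh l ^ n ≤ Real.exp (l ^ 2 / 2) ^ n :=
          pow_le_pow_left₀ (Real.cosh_pos l).le (Real.cosh_le_exp_half_sq l) n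
      _ = Real.exp (n * (l ^ 2 / 2)) := (Real.exp_nat_mul _ _).symm
  have h5 : (|2 * (m : ℝ) - n| / n) ^ 2 = l ^ 2 := by
    rw [hl, div_pow, div_pow, sq_abs]
  rw [h5, div_le_iff₀ (by positivity)]
  have h6 : (n.choose m : ℝ) = Real.exp (-(n * l ^ 2)) * (Real.exp (n * l ^ 2) * n.choose m) := by
    rw [← mul_assoc, ← Real.exp_add, neg_add_cancel, Real.exp_zero, one_mul]
  rw [h6]
  calc Real.exp (-(n * l ^ 2)) * (Real.exp (n * l ^ 2) * n.choose m)
      ≤ Real.exp (-(n * l ^ 2)) * (2 ^ n * Real.exp (n * (l ^ 2 / 2))) :=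
        mul_le_mul_of_nonneg_left (h1.trans h4) (Real.exp_pos _).le
    _ = (Real.exp (-(n * l ^ 2)) * Real.exp (n * (l ^ 2 / 2))) * 2 ^ n := by ring
    _ = Real.exp (-(n * l ^ 2 / 2)) * 2 ^ n := by
        rw [← Real.exp_add]
        congr 2
        ring

theorem choose_le (n m : ℕ) (hn : 0 < n) (hm : m ≤ n) :
    (n.choose m : ℝ) ≤ Real.exp (n * Real.binEntropy (m / n)) := by
  have hn0 : (0 : ℝ) < n := by exact_mod_cast hn
  rcases Nat.eq_zero_or_pos m with h0 | h0
  · subst h0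
    simp
  rcases Nat.eq_or_lt_of_le hm with h1 | h1
  · subst h1
    rw [div_self hn0.ne']
    simp
  have hm0 : (0 : ℝ) < m := by exact_mod_cast h0
  have hmn : (m : ℝ) < n := by exact_mod_cast h1
  obtain ⟨p, hp⟩ : ∃ p : ℝ, p = m / n := ⟨_, rfl⟩
  have hp0 : 0 < p := by rw [hp]; positivity
  have hp1 : 0 < 1 - p := by
    rw [hp, sub_pos, div_lt_one hn0]
    exact hmn
  have h2 := term_le n m hm p (1 - p) hp0.le hp1.le
  rw [add_sub_cancel, one_pow] at h2
  rw [← hp]
  have h3 : Real.exp (n * Real.binEntropy p) = (p ^ m * (1 - p) ^ (n - m))⁻¹ := by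
    have h4 : (p ^ m * (1 - p) ^ (n - m)) = Real.exp (m * Real.log p + (n - m : ℕ) * Real.log (1 - p)) := by
      rw [Real.exp_add, Real.exp_nat_mul, Real.exp_nat_mul, Real.exp_log hp0, Real.exp_log hp1]
    rw [h4, ← Real.exp_neg]
    congr 1
    rw [Nat.cast_sub hm, Real.binEntropy, Real.log_inv, Real.log_inv]
    have : (m : ℝ) = n * p := by
      rw [hp]
      field_simp
    rw [this]
    ring
  have hc0 : (0 : ℝ) < n.choose m := by exact_mod_cast Nat.choose_pos hm
  rw [h3, le_inv_comm₀ hc0 (by positivity)]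
  rw [inv_eq_one_div, le_div_iff₀ hc0]
  exact h2

theorem part_b (n m : ℕ) (hn : 0 < n) (hm : m ≤ n) :
    (n.choose m : ℝ) / 2 ^ n ≤
      Real.exp (-(n * (Real.log 2 - Real.binEntropy ((1 - |2 * (m : ℝ) - n| / n) / 2)))) := by
  have hn0 : (0 : ℝ) < n := by exact_mod_cast hn
  have h1 : Real.binEntropy ((1 - |2 * (m : ℝ) - n| / n) / 2) = Real.binEntropy (m / n) := by
    rcases le_total (2 * (m : ℝ)) n with h | h
    · have : (1 - |2 * (m : ℝ) - n| / n) / 2 = m / n := by
        rw [abs_of_nonpos (by linarith)]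
        field_simp
        ring
      rw [this]
    · have : (1 - |2 * (m : ℝ) - n| / n) / 2 = 1 - m / n := by
        rw [abs_of_nonneg (by linarith)]
        field_simp
        ring
      rw [this, Real.binEntropy_one_sub]
  rw [h1, div_le_iff₀ (by positivity)]
  refine (choose_le n m hn hm).trans (le_of_eq ?_)
  have h2 : (2 : ℝ) ^ n = Real.exp (n * Real.log 2) := by
    rw [Real.exp_nat_mul, Real.exp_log (by norm_num)]
  rw [h2, ← Real.exp_add]
  congr 1
  ring

theorem s_bin : S_bin := fun n m hn hm => ⟨part_a n m hn hm, part_b n m hn hm⟩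

end Pool.Agent.H186.KS.Bin
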