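import Pool.Graph.R_seed8.Y117.SG.Game

/-!
# The second moment potential in the Waiter-Client `k`-SAT game (MP_fefad7_co): definitions

The games, `Clause`, `board`, `Sat`, `Forces`, `offerWC`, `bWC`, `bCW` are those of
`Pool.Agent.Y117.SG.Game`.
-/

set_option autoImplicit false

open Finset

namespace Pool.Agent.H186.KS

open Pool.Agent.Y117.SG

/-- `+1` iff the literal `l` is false under `α`. -/
def zl {n : ℕ} (α : Fin n → Bool) (l : Fin n × Bool) : ℝ := if α l.1 = l.2 then -1 else 1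

/-- The part of degree greater than `r` of the Fourier expansion of the indicator of
`the clause c is violated by α` (for a clause `c` with `k` literals). -/
noncomputable def hf (k r : ℕ) {n : ℕ} (c : Clause n) (α : Fin n → Bool) : ℝ :=
  (1 / 2 ^ k) * ∑ S ∈ c.powerset with r < #S, ∏ l ∈ S, zl α l

/-- The weight of the low levels. -/
noncomputable def pk (k r : ℕ) : ℝ := (1 / 2 ^ k) * ∑ j ∈ range (r + 1), (k.choose j : ℝ)

/-- The correction `a_c`, so that `1 + a_c ≥ 0` and `1 + a_c = 0` if `c` is violated. -/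
noncomputable def ac (k r : ℕ) {n : ℕ} (c : Clause n) (α : Fin n → Bool) : ℝ :=
  - hf k r c α / (1 - pk k r)

/-- The clause with variable set `I` whose positive variables are those in `T` (`T ⊆ I`). -/
def cl {n : ℕ} (I T : Finset (Fin n)) : Clause n := I.image (fun i => (i, decide (i ∈ T)))

/-- `+1` iff `α` and `β` agree at `i`. -/
def yy {n : ℕ} (α β : Fin n → Bool) (i : Fin n) : ℝ := if α i = β i then 1 else -1

/-- The sum of the agreement signs. -/
def ys {n : ℕ} (α β : Fin n → Bool) : ℝ := ∑ i, yy α β i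

/-- The elementary symmetric polynomials. -/
def el {n : ℕ} (y : Fin n → ℝ) (j : ℕ) : ℝ := ∑ S ∈ powersetCard j univ, ∏ i ∈ S, y i

/-- `2⁻ᵏ ∑_{r < j ≤ k} (k choose j) w ^ j`. -/
noncomputable def Gf (k r : ℕ) (w : ℝ) : ℝ := (1 / 2 ^ k) * ∑ j ∈ Ioc r k, (k.choose j : ℝ) * w ^ j

/-- The base of the bound for the elementary symmetric polynomials, `x = |∑ y_i| / n`. -/
noncomputable def wf (n k : ℕ) (x : ℝ) : ℝ := (n : ℝ) / ((n : ℝ) - k) * (x + Real.sqrt ((k : ℝ) / n))

/-- The upper bound for `|K| / Q` (with `r = 5`). -/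
noncomputable def gf (ε : ℝ) (n k : ℕ) (x : ℝ) : ℝ :=
  (1 - ε) * Real.log 2 * n * ((1 - pk k 5) ^ 2)⁻¹ * Gf k 5 (wf n k x)

/-- The kernel of a set `X` of board elements. -/
def Kr {Ω C : Type*} (a : C → Ω → ℝ) (X : Finset C) (σ τ : Ω) : ℝ := ∑ c ∈ X, a c σ * a c τ

end Pool.Agent.H186.KS
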