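import Pool.Agent.H186.KS.Spec

set_option autoImplicit false

open Finset Filter

namespace Pool.Agent.H186.KS.Dist

open Pool.Agent.Y117.SG
open Pool.Agent.H186.KS

theorem sum_fixed (n : ℕ) (F : ℝ → ℝ) (α : Fin n → Bool) :
    ∑ β : Fin n → Bool, F (ys α β) = ∑ m ∈ range (n + 1), (n.choose m : ℝ) * F (2 * m - n) := by
  classical
  have h1 : ∑ β : Fin n → Bool, F (ys α β) =
      ∑ A ∈ (univ : Finset (Fin n)).powerset, F (2 * (A.card : ℝ) - n) := by
    refine Finset.sum_nbij' (fun β => univ.filter (fun i => α i = β i))
      (fun A i => if i ∈ A then α i else !(α i)) ?_ ?_ ?_ ?_ ?_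
    · intro β _
      exact Finset.mem_powerset.2 (Finset.subset_univ _)
    · intro A _
      exact Finset.mem_univ _
    · intro β _
      funext i
      by_cases h : α i = β i
      · simp [h]
      · simp only [Finset.mem_filter, Finset.mem_univ, true_and, h, if_false]
        cases h1 : α i <;> cases h2 : β i <;> simp_all
    · intro A _
      ext i
      simp only [Finset.mem_filter, Finset.mem_univ, true_and]
      by_cases h : i ∈ A
      · simp [h]
      · simp [h]
    · intro β _
      have h2 : ys α β = 2 * ((univ.filter (fun i => α i = β i)).card : ℝ) - n := by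
        unfold ys yy
        have h3 : ∀ i : Fin n, (if α i = β i then (1 : ℝ) else -1) = 2 * (if α i = β i then (1 : ℝ) else 0) - 1 := by
          intro i
          by_cases h : α i = β i
          · rw [if_pos h, if_pos h]; norm_num
          · rw [if_neg h, if_neg h]; norm_num
        rw [Finset.sum_congr rfl (fun i _ => h3 i), Finset.sum_sub_distrib, ← Finset.mul_sum,
          Finset.sum_boole]
        simp
      rw [h2]
  rw [h1, Finset.sum_powerset_apply_card (fun m : ℕ => F (2 * (m : ℝ) - n))]
  simp [nsmul_eq_mul]

theorem s_dist : S_dist := by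
  intro n F
  rw [Finset.sum_congr rfl (fun α _ => sum_fixed n F α), Finset.sum_const, Finset.card_univ]
  simp [nsmul_eq_mul]

end Pool.Agent.H186.KS.Dist
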