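import Pool.Agent.H186.KS.Defs
import Pool.Graph.R_seed8.R982.KS.Defs

/-!
# Statements of the lemmas (subtasks) for the lower half of MP_fefad7_co, Waiter-Client game

Every `S_x : Prop` is proved in a file of its own (`theorem s_x : S_x`); the lemmas that use other
lemmas take them as hypotheses.
-/

set_option autoImplicit false

open Finset Filter

namespace Pool.Agent.H186.KS

open Pool.Agent.Y117.SG

/-- Task B0. The board is parametrised by the pairs `(I, T)`, `T ⊆ I`, `#I = k`.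
Proof: `cl` is injective on such pairs (`I = image fst`, `T = {i | (i,true) ∈ c}`), has values in `board n k`,
and a clause `c` of the board is `cl (c.image fst) {i | (i, true) ∈ c}`; see the proof of `card_board_le` in
`Pool.Graph.R_seed8.Y117.SG.Cnt`. Use `Finset.sum_sigma'` and `Finset.sum_bij'` or `Finset.sum_nbij'`. -/
def S_bridge : Prop :=
  ∀ (n k : ℕ) (F : Clause n → ℝ),
    ∑ c ∈ board n k, F c = ∑ I ∈ powersetCard k (univ : Finset (Fin n)), ∑ T ∈ I.powerset, F (cl I T)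

/-- Task B1. Let `z l = zl α l`. `∑_{S ⊆ c} ∏_{l ∈ S} z l = ∏_{l ∈ c} (1 + z l)` (`Finset.prod_one_add` or
`Finset.prod_add_one`) is `2^k` if all `z l = 1` (the clause is violated) and `0` otherwise (a factor `1 + (-1)`).
Split the sum over `S` into `r < #S` and `#S ≤ r`. The second part has at most
`∑_{j ≤ r} (k choose j) = 2^k * pk k r` terms of absolute value `1`, and is equal to `2^k * pk k r` if `c` is violated. So
`hf = 1 - pk` if violated, `|hf| ≤ pk` otherwise; `1 - pk ≥ 1/2 ≥ pk`. -/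
def S_acb : Prop :=
  ∀ (n k r : ℕ), pk k r ≤ 1 / 2 → ∀ c ∈ board n k, ∀ α : Fin n → Bool,
    |ac k r c α| ≤ 1 ∧ ((∀ l ∈ c, α l.1 ≠ l.2) → ac k r c α = -1)

/-- Task B2. Orthogonality. With `e_i(T) = 1` if `i ∈ T`, else `-1`, one has `zl α (i, decide (i ∈ T)) = - χ(α i) e_i(T)`
with `χ(true) = 1`, `χ(false) = -1`, and `yy α β i = χ(α i) χ(β i)`. Sum over `T ⊆ I` of a product over `i ∈ I` of
factors depending only on `[i ∈ T]` is the product over `i ∈ I` of (value at true + value at false)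
(`Finset.prod_add`), which is `2 * yy` for `i ∈ S ∩ S'`, `2` for `i ∉ S ∪ S'`, and `0` otherwise. -/
def S_orth : Prop :=
  ∀ (n : ℕ) (I S S' : Finset (Fin n)), S ⊆ I → S' ⊆ I → ∀ α β : Fin n → Bool,
    ∑ T ∈ I.powerset, (∏ i ∈ S, zl α (i, decide (i ∈ T))) * (∏ i ∈ S', zl β (i, decide (i ∈ T))) =
      if S = S' then 2 ^ #I * ∏ i ∈ S, yy α β i else 0

/-- Task B3. From `S_bridge` and `S_orth` (take `S' = ∅`, `β = α`): the subsets `S` of `cl I T` are the images of the subsets of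
`I` under `i ↦ (i, decide (i ∈ T))` (injective). All `S` that occur in `hf` are nonempty. -/
def S_sum0 : Prop := ∀ (n k r : ℕ) (α : Fin n → Bool), ∑ c ∈ board n k, ac k r c α = 0

/-- Task B4. From `S_bridge` and `S_orth`:
`∑_c hf c α * hf c β = 2^{-2k} ∑_I ∑_{S,S' ⊆ I, r < #S, r < #S'} ∑_T (...)(...) = 2^{-k} ∑_I ∑_{S ⊆ I, r < #S} ∏_{i ∈ S} yy α β i`, and a set
`S` with `j` elements is contained in `(n - j).choose (k - j)` sets `I` of size `k`. -/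
def S_kern : Prop :=
  ∀ (n k r : ℕ) (α β : Fin n → Bool),
    ∑ c ∈ board n k, hf k r c α * hf k r c β =
      (1 / 2 ^ k) * ∑ j ∈ Ioc r k, ((n - j).choose (k - j) : ℝ) * el (yy α β) j

/-- Task C1. Let `s = ∑ y i`, `e_j = el y j`. As `y_i ^ 2 = 1`: `s * e_j = (j+1) e_{j+1} + (n - (j-1)) e_{j-1}` for `j ≥ 1` and
`e_1 = s`, `e_0 = 1` (double counting: `y_i ∏_{S} y` is `∏_{S ∪ i} y` if `i ∉ S`, and `∏_{S \ i} y` if `i ∈ S`). With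
`e_j = C(n,j) f_j`: `(n-j) f_{j+1} = s f_j - j f_{j-1}` (use `(j+1) C(n,j+1) = (n-j) C(n,j)` and
`(n-j+1) C(n,j-1) = j C(n,j)`). Induction (two steps) gives `|f_j| ≤ w^j`. -/
def S_elb : Prop :=
  ∀ (n k : ℕ) (y : Fin n → ℝ) (w : ℝ), k ≤ n → (∀ i, y i = 1 ∨ y i = -1) → 0 < w →
    (∀ j : ℕ, j < k → |∑ i, y i| * w + j ≤ ((n : ℝ) - j) * w ^ 2) →
    ∀ j : ℕ, j ≤ k → |el y j| ≤ (n.choose j : ℝ) * w ^ j

/-- Task C2. (a) With `w = wf n k x = A (x + δ)`, `A = n/(n-k) ≥ 1`, `δ^2 = k/n`: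
`(n-j) w^2 ≥ (n-k) w^2 = n A (x+δ)^2 = n x w + n A x δ + A k`. (b) From (a) with `x = |ys α β| / n`, `S_kern`, `S_elb` and
`(n-j).choose (k-j) * n.choose j = n.choose k * k.choose j` (`Nat.choose_mul`). -/
def S_kb : Prop :=
  ∀ (n k r : ℕ) (α β : Fin n → Bool), 0 < k → k < n → pk k r < 1 →
    |Kr (ac k r) (board n k) α β| ≤
      (n.choose k : ℝ) * (((1 - pk k r) ^ 2)⁻¹ * Gf k r (wf n k (|ys α β| / n)))

/-- Task D1. For fixed `α`, `β ↦ {i | α i = β i}` is a bijection onto the finsets `A`, and `ys α β = 2 #A - n`;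
then `Finset.sum_powerset_apply_card` or `Finset.sum_powerset`. -/
def S_dist : Prop :=
  ∀ (n : ℕ) (F : ℝ → ℝ), ∑ α : Fin n → Bool, ∑ β : Fin n → Bool, F (ys α β) =
    2 ^ n * ∑ m ∈ range (n + 1), (n.choose m : ℝ) * F (2 * m - n)

/-- Task D2. Binomial bounds. (a) `C(n,m) e^{λ(2m-n)} ≤ (e^λ + e^{-λ})^n = 2^n cosh(λ)^n ≤ 2^n e^{n λ²/2}` (`Real.cosh_le_exp_half_sq`)
with `λ = (2m-n)/n`. (b) `C(n,m) p^m (1-p)^{n-m} ≤ 1` with `p = m/n` (binomial theorem), take logarithms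
(`Real.binEntropy p = p * log p⁻¹ + (1-p) * log (1-p)⁻¹`); `(1 - |2m-n|/n)/2` is `m/n` or `1 - m/n`
(`Real.binEntropy_one_sub`). -/
def S_bin : Prop :=
  ∀ (n m : ℕ), 0 < n → m ≤ n →
    (n.choose m : ℝ) / 2 ^ n ≤ Real.exp (-(n * (|2 * (m : ℝ) - n| / n) ^ 2 / 2)) ∧
    (n.choose m : ℝ) / 2 ^ n ≤
      Real.exp (-(n * (Real.log 2 - Real.binEntropy ((1 - |2 * (m : ℝ) - n| / n) / 2))))

/-- Task D3. `∑_{j ≤ 5} C(k,j) ≤ 6 k^5` for `k ≥ 1`, and `k^5 / 2^k → 0`. -/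
def S_pk : Prop := ∀ δ : ℝ, 0 < δ → ∃ k0 : ℕ, ∀ k ≥ k0, pk k 5 ≤ δ

/-- Task D4. Small `x`. Put `w = wf n k x`. For `n ≥ n0(k)` we have `w ≤ 1` and `(n/(n-k))^6 ≤ 1.1`, so
`Gf k 5 w ≤ w^6` (as `w^j ≤ w^6` for `j ≥ 6` and `∑ C(k,j) ≤ 2^k`) `≤ 1.1 * 32 * (x^6 + (k/n)^3)` (convexity: `(x+δ)^6 ≤ 32 (x^6+δ^6)`,
`add_pow_le_pow_mul_pow_of_add_eq_one` or `inner_le_nnorm_mul_nnorm`; Mathlib: `add_pow_le`), hence with `log 2 ≤ 0.7`,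
`((1-pk)^2)⁻¹ ≤ (100/81)`: `0 ≤ gf ε n k x ≤ 31 n (x^6 + (k/n)^3)`. For `x ≤ 1/5`: `31 x^6 ≤ 31/625 x^2 ≤ x^2/20` and
`31 n (k/n)^3 ≤ 1` for `n` large. So `gf ≤ n x²/20 + 1` and `n^4 gf^2 ≤ n^6 * 31^2 * 2 (x^12 + k^6/n^6) = 1922 ((n x²)^6 + k^6)`. With `t = n x²`
the left side is at most `e * e^{-t/2 + t/20} (1 + 1922 t^6 + 1922 k^6)`, bounded in `t ≥ 0` because `t^6 e^{-t/4} ≤ 6! 4^6`. -/
def S_small : Prop :=
  ∀ (ε : ℝ) (k : ℕ), 0 < ε → ε < 1 → pk k 5 ≤ 1 / 10 →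
    ∃ (B : ℝ) (n0 : ℕ), ∀ n ≥ n0, ∀ x : ℝ, 0 ≤ x → x ≤ 1 / 5 →
      Real.exp (-(n * x ^ 2 / 2)) * ((1 + (n : ℝ) ^ 4 * gf ε n k x ^ 2) * Real.exp (gf ε n k x)) ≤ B

/-- Task D5. Large `x` (pure analysis). Choose `t1 ∈ (0, 1/10]` with `Real.binEntropy t ≤ (ε/4) log 2` for `0 ≤ t ≤ t1` (continuity at
`0`). Always `0 ≤ Gf k 5 w ≤ ((1+w)/2)^k` for `w ≥ 0` (binomial theorem), and `wf n k x ≤ x + η` for all
`x ∈ [0,1]` if `n ≥ n(k, η)`. `k0`: so large that for `k ≥ k0`, `((1 - pk k 5)^2)⁻¹ ≤ 1 + ε/8` (use `S_pk`) and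
`2 * (1 - t1/2)^k ≤ 1/100`. Case 1, `x ≥ 1 - 2 t1`: `Gf ≤ (1 + η/2)^k ≤ 1 + ε/8` if `η` is small depending on `k`;
`gf ≤ n log 2 (1-ε)(1+ε/8)^2 ≤ n log 2 (1 - ε/2)`, while `log 2 - H((1-x)/2) ≥ log 2 (1 - ε/4)`; so
`b * exp(gf) ≤ exp(-n log 2 ε/4)`. Case 2, `1/5 ≤ x ≤ 1 - 2 t1`: `(1+w)/2 ≤ 1 - t1 + η/2 ≤ 1 - t1/2`, so
`gf ≤ n * 2 * (1-t1/2)^k ≤ n/100`, while `x²/2 ≥ 1/50`; so `b * exp(gf) ≤ exp(-n/100)`. In both cases `gf ≤ n`, so that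
`1 + n^4 gf^2 ≤ 1 + n^6` is beaten for large `n`. -/
def S_large : Prop :=
  ∀ ε : ℝ, 0 < ε → ε < 1 → ∃ k0 : ℕ, ∀ k ≥ k0, ∃ n0 : ℕ, ∀ n ≥ n0, ∀ x b : ℝ, 1 / 5 ≤ x → x ≤ 1 → 0 ≤ b →
    b ≤ Real.exp (-(n * x ^ 2 / 2)) →
    b ≤ Real.exp (-(n * (Real.log 2 - Real.binEntropy ((1 - x) / 2)))) →
    b * ((1 + (n : ℝ) ^ 4 * gf ε n k x ^ 2) * Real.exp (gf ε n k x)) ≤ 1

/-- Task D6. Assembly of `S_kb`, `S_dist`, `S_bin`, `S_pk`, `S_small`, `S_large`: `|K| / Q ≤ gf ε n k x` with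
`x = |ys α β| / n ≤ 1` because `(n choose k) / Q ≤ (1-ε) log 2 n`; `(1 + n^4 v^2) e^v` is bounded by its value at `v = gf` for
`|v| ≤ gf`. So by `S_dist` the sum is at most `2^n ∑_{m ≤ n} C(n,m) E(|2m-n|/n) ≤ 4^n (n+1) max(B, 1) ≤ 4^n n^2 / (32 * 4^k)` for large `n`. -/
def S_D : Prop :=
  ∀ ε : ℝ, 0 < ε → ε < 1 → ∃ k0 : ℕ, ∀ k ≥ k0, pk k 5 ≤ 1 / 2 ∧ ∃ n0 : ℕ, ∀ n ≥ n0, ∀ Q : ℝ, 0 < Q →
    (n.choose k : ℝ) ≤ (1 - ε) * Real.log 2 * n * Q →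
    ∑ α : Fin n → Bool, ∑ β : Fin n → Bool,
      (1 + (n : ℝ) ^ 4 * (Kr (ac k 5) (board n k) α β / Q) ^ 2) *
        Real.exp (Kr (ac k 5) (board n k) α β / Q) ≤
      (n : ℝ) ^ 2 / (32 * 4 ^ k) * ((2 : ℝ) ^ n) ^ 2

/-- Task A (owner). The abstract second moment potential for Client. -/
def S_abs : Prop :=
  ∀ (Ω C : Type) [Fintype Ω] [Nonempty Ω] [DecidableEq C] (a : C → Ω → ℝ) (X : Finset C) (q : ℕ)
    (M D : ℝ), (∀ c ∈ X, ∀ σ, |a c σ| ≤ 1) → (∀ σ, ∑ c ∈ X, a c σ = 0) → 0 < M →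
    4 * (M / ((q : ℝ) + 1)) * Real.sqrt (2 * D) * ((#X : ℝ) / ((q : ℝ) + 1)) ≤ 1 →
    ∑ σ, ∑ τ, (1 + (Kr a X σ τ / M) ^ 2) * Real.exp (Kr a X σ τ / ((q : ℝ) + 1)) ≤
      D * (Fintype.card Ω : ℝ) ^ 2 →
    ¬ Forces (offerWC q) (fun Y => ∀ σ, ∃ c ∈ Y, a c σ = -1) X ∅

/-- Task E1. From `S_abs` (with `Ω = Fin n → Bool`, `a = ac k 5`, `M = Q / n^2`, `Q = q + 1`, `D = n^2 / (32 * 4^k)`), `S_D`, `S_acb`,
`S_sum0`, and `card_board_le` of `Pool.Graph.R_seed8.Y117.SG.Cnt`. If `¬ Sat Y` then every `α` violates a clause `c ∈ Y`;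
here one needs `c ∈ board n k` for `S_acb`, so first show (induction on `Forces`) that Waiter forces
`¬ Sat Y ∧ Y ⊆ board n k`, hence (goals are monotone: prove that `Forces` is monotone in the goal) the goal of
`S_abs`. -/
def S_win : Prop :=
  ∀ ε : ℝ, 0 < ε → ε < 1 → ∃ k0 : ℕ, ∀ k ≥ k0, ∃ n0 : ℕ, ∀ n ≥ n0, ∀ q : ℕ,
    (n.choose k : ℝ) ≤ (1 - ε) * Real.log 2 * n * ((q : ℝ) + 1) →
    ¬ Forces (offerWC q) (fun Y : Finset (Clause n) => ¬ Sat Y) (board n k) ∅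

/-- Task E2. From `S_win`: the ratio. Copy the proof of `finalcw_of` in `Pool.Graph.R_seed8.R982.KS.FinalCW`. -/
def S_ratio : Prop :=
  ∀ ε : ℝ, 0 < ε → ∃ k0 : ℕ, ∀ k ≥ k0, ∃ n0 : ℕ, ∀ n ≥ n0,
    1 - ε ≤ 1 / (n : ℝ) * (n.choose k : ℝ) * ((bWC n k : ℝ))⁻¹ / Real.log 2

/-- Task E3. The two formalisations of the games in the library have the same threshold biases (the Client-Waiter one is
needed). Induction on `Forces` / `CWWaiter`; the boards are equal by extensionality. -/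
def S_same : Prop :=
  ∀ n k : ℕ, Pool.Agent.R982.KS.bCW n k = Pool.Agent.Y117.SG.bCW n k

end Pool.Agent.H186.KS
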