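import Mathlib
import Pool.Agent.H186.KS.Spec

set_option autoImplicit false

open Finset Filter

namespace Pool.Agent.H186.KS.Kb

open Pool.Agent.Y117.SG Pool.Agent.H186.KS

theorem s_kb (h0 : S_kern) (h1 : S_elb) : S_kb := by
  intro n k r α β hk hkn hpk
  set x : ℝ := |ys α β| / n with hx
  set w : ℝ := wf n k x with hw
  have hn0 : (0 : ℝ) < n := by exact_mod_cast (lt_trans hk hkn)
  have hk0 : (0 : ℝ) < k := by exact_mod_cast hk
  have hkn' : (k : ℝ) < n := by exact_mod_cast hkn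
  have hnk : (0 : ℝ) < (n : ℝ) - k := by linarith
  have hx0 : 0 ≤ x := by positivity
  set δ : ℝ := Real.sqrt ((k : ℝ) / n) with hδ
  have hδ2 : δ ^ 2 = (k : ℝ) / n := Real.sq_sqrt (by positivity)
  have hδ0 : 0 < δ := Real.sqrt_pos.2 (by positivity)
  have hw' : ((n : ℝ) - k) * w = n * (x + δ) := by
    rw [hw, wf, ← hδ]
    field_simp
  have hwge : x + δ ≤ w := by
    have h2 : ((n : ℝ) - k) * (x + δ) ≤ ((n : ℝ) - k) * w := by
      rw [hw']
      have : 0 ≤ x + δ := by linarith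
      nlinarith
    exact le_of_mul_le_mul_left h2 hnk
  have hw0 : 0 < w := by linarith
  have hyy : ∀ i, yy α β i = 1 ∨ yy α β i = -1 := by
    intro i
    unfold yy
    split_ifs
    · exact Or.inl rfl
    · exact Or.inr rfl
  have hys : |∑ i, yy α β i| = n * x := by
    rw [hx]
    have : ∑ i, yy α β i = ys α β := rfl
    rw [this]
    field_simp
  have hel : ∀ j : ℕ, j ≤ k → |el (yy α β) j| ≤ (n.choose j : ℝ) * w ^ j := by
    refine h1 n k (yy α β) w hkn.le hyy hw0 fun j hj => ?_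
    rw [hys]
    have hj' : (j : ℝ) < k := by exact_mod_cast hj
    have e1 : ((n : ℝ) - k) * w ^ 2 = n * x * w + n * δ * w := by
      have : ((n : ℝ) - k) * w ^ 2 = ((n : ℝ) - k) * w * w := by ring
      rw [this, hw']
      ring
    have e2 : (k : ℝ) ≤ n * δ * w := by
      have e3 : n * δ ^ 2 = k := by
        rw [hδ2]
        field_simp
      have e4 : n * δ * δ ≤ n * δ * w := by
        apply mul_le_mul_of_nonneg_left _ (by positivity)
        linarith
      nlinarith
    have e5 : ((n : ℝ) - k) * w ^ 2 ≤ ((n : ℝ) - j) * w ^ 2 := by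
      apply mul_le_mul_of_nonneg_right _ (by positivity)
      linarith
    linarith
  have hp : (0 : ℝ) < 1 - pk k r := by linarith
  -- the kernel
  have hK : Kr (ac k r) (board n k) α β
      = ((1 - pk k r) ^ 2)⁻¹ * ((1 / 2 ^ k) *
        ∑ j ∈ Ioc r k, ((n - j).choose (k - j) : ℝ) * el (yy α β) j) := by
    rw [← h0 n k r α β, Kr, Finset.mul_sum]
    refine Finset.sum_congr rfl fun c _ => ?_
    unfold ac
    field_simp
  rw [hK, abs_mul, abs_mul, abs_of_pos (by positivity : (0 : ℝ) < ((1 - pk k r) ^ 2)⁻¹),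
    abs_of_pos (by positivity : (0 : ℝ) < 1 / 2 ^ k)]
  have hsum : |∑ j ∈ Ioc r k, ((n - j).choose (k - j) : ℝ) * el (yy α β) j|
      ≤ (n.choose k : ℝ) * ∑ j ∈ Ioc r k, (k.choose j : ℝ) * w ^ j := by
    refine (Finset.abs_sum_le_sum_abs _ _).trans ?_
    rw [Finset.mul_sum]
    refine Finset.sum_le_sum fun j hj => ?_
    have hjk : j ≤ k := (Finset.mem_Ioc.1 hj).2
    rw [abs_mul, abs_of_nonneg (by positivity : (0 : ℝ) ≤ ((n - j).choose (k - j) : ℝ))]
    have hc : (n.choose k : ℝ) * (k.choose j : ℝ)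
        = (n.choose j : ℝ) * ((n - j).choose (k - j) : ℝ) := by
      exact_mod_cast Nat.choose_mul hjk
    calc ((n - j).choose (k - j) : ℝ) * |el (yy α β) j|
        ≤ ((n - j).choose (k - j) : ℝ) * ((n.choose j : ℝ) * w ^ j) :=
          mul_le_mul_of_nonneg_left (hel j hjk) (by positivity)
      _ = (n.choose k : ℝ) * ((k.choose j : ℝ) * w ^ j) := by
          rw [← mul_assoc, ← mul_assoc, hc]
          ring
  calc ((1 - pk k r) ^ 2)⁻¹ * (1 / 2 ^ k *
        |∑ j ∈ Ioc r k, ((n - j).choose (k - j) : ℝ) * el (yy α β) j|)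
      ≤ ((1 - pk k r) ^ 2)⁻¹ * (1 / 2 ^ k *
        ((n.choose k : ℝ) * ∑ j ∈ Ioc r k, (k.choose j : ℝ) * w ^ j)) := by
        gcongr
    _ = (n.choose k : ℝ) * (((1 - pk k r) ^ 2)⁻¹ * Gf k r w) := by
        rw [Gf]
        ring

end Pool.Agent.H186.KS.Kb
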