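import Pool.Agent.H186.KS.Spec

set_option autoImplicit false

open Finset

namespace Pool.Agent.H186.KS.Kern

open Pool.Agent.H186.KS Pool.Agent.Y117.SG

/-- the literal of the variable `i` in the clause with positive variables `T` -/
def ph {n : ℕ} (T : Finset (Fin n)) (i : Fin n) : Fin n × Bool := (i, decide (i ∈ T))

theorem ph_inj {n : ℕ} (T : Finset (Fin n)) : Function.Injective (ph T) := by
  intro i j h
  exact (Prod.mk.inj h).1

theorem hf_cl (k r : ℕ) {n : ℕ} (I T : Finset (Fin n)) (α : Fin n → Bool) :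
    hf k r (cl I T) α = (1 / 2 ^ k) * ∑ S ∈ I.powerset with r < #S,
      ∏ i ∈ S, zl α (i, decide (i ∈ T)) := by
  classical
  unfold hf
  congr 1
  symm
  apply Finset.sum_nbij (fun S => S.image (ph T))
  · intro S hS
    rw [mem_filter, mem_powerset] at hS ⊢
    refine ⟨image_subset_image hS.1, ?_⟩
    rw [card_image_of_injective _ (ph_inj T)]
    exact hS.2
  · intro S _ S' _ h
    exact Finset.image_injective (ph_inj T) h
  · intro c hc
    rw [mem_coe, mem_filter, mem_powerset] at hc
    obtain ⟨S, hS, hSc⟩ := subset_image_iff.1 hc.1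
    refine ⟨S, ?_, hSc⟩
    rw [mem_coe, mem_filter, mem_powerset]
    refine ⟨hS, ?_⟩
    have h2 := hc.2
    rw [← hSc] at h2
    have h3 : #(S.image (ph T)) = #S := card_image_of_injective _ (ph_inj T)
    change r < #(S.image (ph T)) at h2
    omega
  · intro S _
    rw [prod_image (fun a _ b _ h => ph_inj T h)]
    rfl

theorem s_sum0 (h0 : S_bridge) (h1 : S_orth) : S_sum0 := by
  classical
  intro n k r α
  unfold ac
  have hz : ∑ c ∈ board n k, hf k r c α = 0 := by
    rw [h0 n k]
    apply sum_eq_zero
    intro I _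
    simp_rw [hf_cl]
    rw [← mul_sum, sum_comm]
    rw [sum_eq_zero, mul_zero]
    intro S hS
    rw [mem_filter, mem_powerset] at hS
    have h2 := h1 n I S ∅ hS.1 (empty_subset _) α α
    have h3 : S ≠ ∅ := by
      rintro rfl
      simp at hS
    rw [if_neg h3] at h2
    simpa using h2
  calc ∑ c ∈ board n k, -hf k r c α / (1 - pk k r)
      = (-1 / (1 - pk k r)) * ∑ c ∈ board n k, hf k r c α := by
        rw [mul_sum]
        apply sum_congr rfl
        intro c _
        ring
    _ = 0 := by rw [hz, mul_zero]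

/-- the number of `k`-sets which contain a given set -/
theorem card_super {n k : ℕ} (S : Finset (Fin n)) (hS : #S ≤ k) :
    #((powersetCard k (univ : Finset (Fin n))).filter (fun I => S ⊆ I)) =
      (n - #S).choose (k - #S) := by
  classical
  have h : #(powersetCard (k - #S) (univ \ S : Finset (Fin n))) = (n - #S).choose (k - #S) := by
    rw [card_powersetCard, card_sdiff_of_subset (subset_univ _), card_univ, Fintype.card_fin]
  rw [← h]
  apply Finset.card_nbij' (fun I => I \ S) (fun J => J ∪ S)
  · intro I hI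
    rw [mem_coe, mem_filter, mem_powersetCard] at hI
    rw [mem_coe, mem_powersetCard]
    refine ⟨sdiff_subset_sdiff (subset_univ _) (subset_refl _), ?_⟩
    rw [card_sdiff_of_subset hI.2, hI.1.2]
  · intro J hJ
    rw [mem_coe, mem_powersetCard] at hJ
    rw [mem_coe, mem_filter, mem_powersetCard]
    refine ⟨⟨subset_univ _, ?_⟩, subset_union_right⟩
    rw [card_union_of_disjoint, hJ.2]
    · omega
    · exact disjoint_of_subset_left hJ.1 sdiff_disjoint
  · intro I hI
    rw [mem_coe, mem_filter] at hI
    exact sdiff_union_of_subset hI.2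
  · intro J hJ
    rw [mem_coe, mem_powersetCard] at hJ
    exact union_sdiff_cancel_right (disjoint_of_subset_left hJ.1 sdiff_disjoint)

theorem s_kern (h0 : S_bridge) (h1 : S_orth) : S_kern := by
  classical
  intro n k r α β
  set P : Finset (Fin n) → ℝ := fun S => ∏ i ∈ S, yy α β i with hP
  have e1 : ∑ c ∈ board n k, hf k r c α * hf k r c β =
      (1 / 2 ^ k) * ∑ I ∈ powersetCard k (univ : Finset (Fin n)),
        ∑ S ∈ I.powerset with r < #S, P S := by
    rw [h0 n k, mul_sum]
    apply sum_congr rfl
    intro I hI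
    have hIk : #I = k := (mem_powersetCard.1 hI).2
    have e2 : ∀ T ∈ I.powerset, hf k r (cl I T) α * hf k r (cl I T) β =
        ((1 / 2 ^ k) * (1 / 2 ^ k)) * ∑ S ∈ I.powerset with r < #S, ∑ S' ∈ I.powerset with r < #S',
          (∏ i ∈ S, zl α (i, decide (i ∈ T))) * (∏ i ∈ S', zl β (i, decide (i ∈ T))) := by
      intro T _
      rw [hf_cl, hf_cl, ← sum_mul_sum]
      ring
    rw [sum_congr rfl e2, ← mul_sum, sum_comm]
    have e3 : ∀ S ∈ I.powerset.filter (fun S => r < #S),
        ∑ T ∈ I.powerset, ∑ S' ∈ I.powerset with r < #S',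
          (∏ i ∈ S, zl α (i, decide (i ∈ T))) * (∏ i ∈ S', zl β (i, decide (i ∈ T))) =
        2 ^ k * P S := by
      intro S hS
      have hS' := hS
      rw [mem_filter, mem_powerset] at hS'
      rw [sum_comm]
      have e4 : ∀ S' ∈ I.powerset.filter (fun S => r < #S),
          ∑ T ∈ I.powerset, (∏ i ∈ S, zl α (i, decide (i ∈ T))) *
            (∏ i ∈ S', zl β (i, decide (i ∈ T))) = if S = S' then 2 ^ k * P S else 0 := by
        intro S' hS2
        rw [mem_filter, mem_powerset] at hS2
        rw [h1 n I S S' hS'.1 hS2.1 α β, hIk]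
      rw [sum_congr rfl e4, sum_ite_eq, if_pos hS]
    rw [sum_congr rfl e3, ← mul_sum, ← mul_assoc]
    congr 1
    field_simp
  rw [e1]
  congr 1
  -- interchange the sums
  have e5 : ∑ I ∈ powersetCard k (univ : Finset (Fin n)), ∑ S ∈ I.powerset with r < #S, P S =
      ∑ S ∈ (univ : Finset (Finset (Fin n))).filter (fun S => #S ∈ Ioc r k),
        ((n - #S).choose (k - #S) : ℝ) * P S := by
    have e6 : ∀ I ∈ powersetCard k (univ : Finset (Fin n)), ∑ S ∈ I.powerset with r < #S, P S =
        ∑ S ∈ (univ : Finset (Finset (Fin n))).filter (fun S => #S ∈ Ioc r k),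
          if S ⊆ I then P S else 0 := by
      intro I hI
      have hIk : #I = k := (mem_powersetCard.1 hI).2
      rw [← sum_filter]
      apply sum_congr _ (fun _ _ => rfl)
      ext S
      simp only [mem_filter, mem_powerset, mem_univ, true_and, mem_Ioc]
      constructor
      · rintro ⟨a, b⟩
        exact ⟨⟨b, hIk ▸ card_le_card a⟩, a⟩
      · rintro ⟨⟨a, _⟩, b⟩
        exact ⟨b, a⟩
    rw [sum_congr rfl e6, sum_comm]
    apply sum_congr rfl
    intro S hS
    rw [mem_filter, mem_Ioc] at hS
    rw [← sum_filter, sum_const, card_super S hS.2.2, nsmul_eq_mul]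
  rw [e5, ← sum_fiberwise_of_maps_to (s := (univ : Finset (Finset (Fin n))).filter
    (fun S => #S ∈ Ioc r k)) (t := Ioc r k) (g := fun S => #S)
    (fun S hS => (mem_filter.1 hS).2)]
  apply sum_congr rfl
  intro j hj
  unfold el
  rw [mul_sum]
  have e7 : ((univ : Finset (Finset (Fin n))).filter (fun S => #S ∈ Ioc r k)).filter
      (fun S => #S = j) = powersetCard j univ := by
    ext S
    simp only [mem_filter, mem_univ, true_and, mem_powersetCard, subset_univ]
    constructor
    · exact fun h => h.2
    · intro h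
      exact ⟨h ▸ hj, h⟩
  rw [e7]
  apply sum_congr rfl
  intro S hS
  rw [(mem_powersetCard.1 hS).2]

end Pool.Agent.H186.KS.Kern
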