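import Pool.Agent.H186.KS.Spec

/-!
# Iterated limits from uniform bounds
-/

set_option autoImplicit false

open Filter

namespace Pool.Agent.H186.KS.Lim

/-- If for every `ε > 0`, all large `k` and all `n ≥ n0(k)` the value `f n k` is within `ε` of `1`, then the
iterated limits superior and inferior are `1`, and so is every iterated limit. -/
theorem iterated (f : ℕ → ℕ → ℝ)
    (h : ∀ ε : ℝ, 0 < ε → ∃ k0 : ℕ, ∀ k ≥ k0, ∀ᶠ n : ℕ in atTop, |f n k - 1| ≤ ε) :
    Tendsto (fun k => limsup (fun n => f n k) atTop) atTop (nhds 1) ∧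
    Tendsto (fun k => liminf (fun n => f n k) atTop) atTop (nhds 1) ∧
    ∀ L : ℕ → ℝ, (∀ᶠ k in atTop, Tendsto (fun n => f n k) atTop (nhds (L k))) →
      Tendsto L atTop (nhds 1) := by
  have key : ∀ ε : ℝ, 0 < ε → ∃ k0 : ℕ, ∀ k ≥ k0,
      |limsup (fun n => f n k) atTop - 1| ≤ ε ∧ |liminf (fun n => f n k) atTop - 1| ≤ ε := by
    intro ε hε
    obtain ⟨k0, hk0⟩ := h ε hε
    refine ⟨k0, fun k hk => ?_⟩
    have h1 := hk0 k hk
    have hup : ∀ᶠ n : ℕ in atTop, f n k ≤ 1 + ε := by
      filter_upwards [h1] with n hn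
      have := (abs_le.1 hn).2
      linarith
    have hlo : ∀ᶠ n : ℕ in atTop, 1 - ε ≤ f n k := by
      filter_upwards [h1] with n hn
      have := (abs_le.1 hn).1
      linarith
    have hbu : IsBoundedUnder (· ≤ ·) atTop (fun n => f n k) := ⟨1 + ε, by simpa using hup⟩
    have hbl : IsBoundedUnder (· ≥ ·) atTop (fun n => f n k) := ⟨1 - ε, by simpa using hlo⟩
    have e1 : limsup (fun n => f n k) atTop ≤ 1 + ε := limsup_le_of_le hbl.isCoboundedUnder_le hup
    have e2 : 1 - ε ≤ liminf (fun n => f n k) atTop := le_liminf_of_le hbu.isCoboundedUnder_ge hlo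
    have e3 : liminf (fun n => f n k) atTop ≤ limsup (fun n => f n k) atTop := liminf_le_limsup hbu hbl
    constructor
    · rw [abs_le]; constructor <;> linarith
    · rw [abs_le]; constructor <;> linarith
  refine ⟨?_, ?_, ?_⟩
  · rw [Metric.tendsto_atTop]
    intro ε hε
    obtain ⟨k0, hk0⟩ := key (ε / 2) (by positivity)
    refine ⟨k0, fun k hk => ?_⟩
    rw [Real.dist_eq]
    have := (hk0 k hk).1
    linarith
  · rw [Metric.tendsto_atTop]
    intro ε hε
    obtain ⟨k0, hk0⟩ := key (ε / 2) (by positivity)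
    refine ⟨k0, fun k hk => ?_⟩
    rw [Real.dist_eq]
    have := (hk0 k hk).2
    linarith
  · intro L hL
    obtain ⟨k1, hk1⟩ := eventually_atTop.1 hL
    rw [Metric.tendsto_atTop]
    intro ε hε
    obtain ⟨k0, hk0⟩ := h (ε / 2) (by positivity)
    refine ⟨max k0 k1, fun k hk => ?_⟩
    rw [Real.dist_eq]
    have h2 := hk1 k (le_trans (le_max_right _ _) hk)
    have h3 : Tendsto (fun n => |f n k - 1|) atTop (nhds |L k - 1|) :=
      (h2.sub_const 1).abs
    have h4 : |L k - 1| ≤ ε / 2 := le_of_tendsto h3 (hk0 k (le_trans (le_max_left _ _) hk))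
    linarith

end Pool.Agent.H186.KS.Lim
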