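import Pool.Agent.H186.KS.Spec
import Pool.Graph.R_seed8.R982.KS.Defs

/-! Two formalisations of the Client-Waiter `k`-SAT game have the same threshold bias. -/

set_option autoImplicit false

open Finset

namespace Pool.Agent.H186.KS.Same

open Pool.Agent.Y117.SG (Forces offerCW)
open Pool.Agent.R982.KS (CWWaiter)

theorem cw_to {α : Type} [DecidableEq α] {P : Finset α → Prop} {q : ℕ} {U S : Finset α}
    (h : CWWaiter P q U S) : Forces (offerCW q) (fun Y => ¬ P Y) U S := by
  induction h with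
  | done S hS =>
    refine Forces.stop _ _ (fun B hB => ?_) hS
    have h1 := subset_empty.1 hB.1
    have h2 := hB.2.1
    rw [h1, card_empty] at h2
    omega
  | step U S X hX hne hc _ ih =>
    exact Forces.round U S X ⟨hX, card_pos.2 hne, hc⟩ ih

theorem cw_of {α : Type} [DecidableEq α] {P : Finset α → Prop} {q : ℕ} {U S : Finset α}
    (h : Forces (offerCW q) (fun Y => ¬ P Y) U S) : CWWaiter P q U S := by
  induction h with
  | stop X Y hX hY =>
    have h1 : X = ∅ := by
      by_contra hne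
      obtain ⟨x, hx⟩ := nonempty_iff_ne_empty.2 hne
      refine hX {x} ⟨singleton_subset_iff.2 hx, ?_, ?_⟩
      · rw [card_singleton]
      · rw [card_singleton]; omega
    rw [h1]
    exact CWWaiter.done Y hY
  | round X Y B hB _ ih =>
    exact CWWaiter.step X Y B hB.1 (card_pos.1 hB.2.1) hB.2.2 ih

theorem board_eq (n k : ℕ) : Pool.Agent.R982.KS.board n k = Pool.Agent.Y117.SG.board n k := by
  ext c
  unfold Pool.Agent.R982.KS.board Pool.Agent.Y117.SG.board
  rw [mem_filter, mem_filter, mem_powersetCard]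
  constructor
  · rintro ⟨⟨_, h1⟩, h2⟩
    exact ⟨mem_univ _, h1, h2⟩
  · rintro ⟨_, h1, h2⟩
    exact ⟨⟨subset_univ _, h1⟩, h2⟩

theorem sat_iff {n : ℕ} (Y : Finset (Finset (Fin n × Bool))) :
    ¬ Pool.Agent.R982.KS.Unsat Y ↔ Pool.Agent.Y117.SG.Sat Y := by
  unfold Pool.Agent.R982.KS.Unsat Pool.Agent.Y117.SG.Sat Pool.Agent.R982.KS.SatC
  constructor
  · intro h
    by_contra h2
    refine h fun a => ?_
    by_contra h3
    refine h2 ⟨a, fun c hc => ?_⟩
    by_contra h4
    exact h3 ⟨c, hc, h4⟩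
  · rintro ⟨a, ha⟩ h
    obtain ⟨c, hc, h2⟩ := h a
    exact h2 (ha c hc)

theorem s_same : Pool.Agent.H186.KS.S_same := by
  intro n k
  have hg : (fun Y : Finset (Finset (Fin n × Bool)) => ¬ Pool.Agent.R982.KS.Unsat Y) =
      Pool.Agent.Y117.SG.Sat := funext fun Y => propext (sat_iff Y)
  have hs : {q : ℕ | 1 ≤ q ∧ CWWaiter Pool.Agent.R982.KS.Unsat q
      (Pool.Agent.R982.KS.board n k) ∅} =
      {q : ℕ | 1 ≤ q ∧ Forces (offerCW q) Pool.Agent.Y117.SG.Sat
        (Pool.Agent.Y117.SG.board n k) ∅} := by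
    ext q
    refine and_congr Iff.rfl ?_
    rw [board_eq, ← hg]
    exact ⟨cw_to, cw_of⟩
  unfold Pool.Agent.R982.KS.bCW Pool.Agent.Y117.SG.bCW
  rw [hs]

end Pool.Agent.H186.KS.Same
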