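import Pool.Agent.H186.KS.Spec
import Pool.Graph.R_seed8.Y117.SG.Cnt

/-!
Tasks E1 and E2 of MP_fefad7_co (owner helper186): Client wins the `(1 : q)` Waiter-Client `k`-SAT game
for `q + 1 ≥ C(n,k) / ((1 - ε) log 2 n)`, and the resulting lower bound for the ratio.
-/

set_option autoImplicit false

open Finset Filter

namespace Pool.Agent.H186.KS.Win

open Pool.Agent.Y117.SG Pool.Agent.H186.KS

/-- Waiter keeps Client inside of the board; the goal may be weakened on subsets of the board. -/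
lemma forces_goal {C : Type*} [DecidableEq C] {q : ℕ} {goal goal' : Finset C → Prop}
    (B0 : Finset C) (hg : ∀ Y, Y ⊆ B0 → goal Y → goal' Y) {X Y : Finset C}
    (h : Forces (offerWC q) goal X Y) :
    X ⊆ B0 → Y ⊆ B0 → Forces (offerWC q) goal' X Y := by
  induction h with
  | stop X Y hs hY =>
    intro _ hYB
    exact Forces.stop X Y hs (hg Y hYB hY)
  | round X Y B hB _ ih =>
    intro hX hY
    refine Forces.round X Y B hB fun c hc => ih c hc ?_ ?_
    · exact (Finset.sdiff_subset).trans hX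
    · exact Finset.insert_subset (hX (hB.1 hc)) hY

theorem s_win (hA : S_abs) (hD : S_D) (hac : S_acb) (h0 : S_sum0) : S_win := by
  intro ε hε hε1
  obtain ⟨k0, hk0⟩ := hD ε hε hε1
  refine ⟨k0, fun k hk => ?_⟩
  obtain ⟨hpk, n0, hn0⟩ := hk0 k hk
  refine ⟨max n0 1, fun n hn q hq hF => ?_⟩
  have hnn0 : n0 ≤ n := le_trans (le_max_left _ _) hn
  have hn1 : 1 ≤ n := le_trans (le_max_right _ _) hn
  have hnr : (0 : ℝ) < n := by exact_mod_cast hn1
  have hQ : (0 : ℝ) < (q : ℝ) + 1 := by positivity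
  have hlog : 0 < Real.log 2 := Real.log_pos (by norm_num)
  have hlog1 : Real.log 2 ≤ 1 := by
    have := Real.log_le_sub_one_of_pos (by norm_num : (0 : ℝ) < 2)
    linarith
  have hsum := hn0 n hnn0 ((q : ℝ) + 1) hQ hq
  have h2k : (0 : ℝ) < 2 ^ k := by positivity
  refine hA (Fin n → Bool) (Clause n) (ac k 5) (board n k) q (((q : ℝ) + 1) / (n : ℝ) ^ 2)
    ((n : ℝ) ^ 2 / (32 * 4 ^ k)) (fun c hc σ => (hac n k 5 hpk c hc σ).1) (h0 n k 5)
    (by positivity) ?_ ?_ ?_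
  · have e1 : ((q : ℝ) + 1) / (n : ℝ) ^ 2 / ((q : ℝ) + 1) = 1 / (n : ℝ) ^ 2 := by
      field_simp
    have e2 : Real.sqrt (2 * ((n : ℝ) ^ 2 / (32 * 4 ^ k))) = n / (4 * 2 ^ k) := by
      have e3 : 2 * ((n : ℝ) ^ 2 / (32 * 4 ^ k)) = ((n : ℝ) / (4 * 2 ^ k)) ^ 2 := by
        have e4 : (4 : ℝ) ^ k = (2 ^ k) ^ 2 := by
          rw [← pow_mul, mul_comm, pow_mul]
          norm_num
        rw [e4, div_pow, mul_pow]
        field_simp
        norm_num
      rw [e3, Real.sqrt_sq (by positivity)]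
    have e5 : (#(board n k) : ℝ) / ((q : ℝ) + 1) ≤ 2 ^ k * ((1 - ε) * Real.log 2 * n) := by
      rw [div_le_iff₀ hQ]
      have h1 : (#(board n k) : ℝ) ≤ 2 ^ k * (n.choose k : ℝ) := by
        exact_mod_cast card_board_le n k
      calc (#(board n k) : ℝ) ≤ 2 ^ k * (n.choose k : ℝ) := h1
        _ ≤ 2 ^ k * ((1 - ε) * Real.log 2 * n * ((q : ℝ) + 1)) := by gcongr
        _ = 2 ^ k * ((1 - ε) * Real.log 2 * n) * ((q : ℝ) + 1) := by ring
    rw [e1, e2]
    calc 4 * (1 / (n : ℝ) ^ 2) * (n / (4 * 2 ^ k)) * ((#(board n k) : ℝ) / ((q : ℝ) + 1))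
        ≤ 4 * (1 / (n : ℝ) ^ 2) * (n / (4 * 2 ^ k)) * (2 ^ k * ((1 - ε) * Real.log 2 * n)) :=
          mul_le_mul_of_nonneg_left e5 (by positivity)
      _ = (1 - ε) * Real.log 2 := by field_simp
      _ ≤ 1 := by nlinarith
  · refine le_trans (le_of_eq ?_) (hsum.trans (le_of_eq ?_))
    · refine Finset.sum_congr rfl fun σ _ => Finset.sum_congr rfl fun τ _ => ?_
      congr 2
      field_simp
    · simp [Fintype.card_pi, Fintype.card_bool]
  · refine forces_goal (board n k) ?_ hF subset_rfl (Finset.empty_subset _)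
    intro Y hYB hY σ
    by_contra hcon
    apply hY
    refine ⟨σ, fun c hc => ?_⟩
    by_contra hc2
    apply hcon
    refine ⟨c, hc, (hac n k 5 hpk c (hYB hc) σ).2 fun l hl h => hc2 ⟨l, hl, h⟩⟩

theorem s_ratio (hW : S_win) : S_ratio := by
  intro ε hε
  obtain ⟨e, he⟩ : ∃ e, e = min ε (1 / 2) := ⟨_, rfl⟩
  have he0 : 0 < e := by rw [he]; exact lt_min hε (by norm_num)
  have he1 : e ≤ 1 / 2 := by rw [he]; exact min_le_right _ _
  have heε : e ≤ ε := by rw [he]; exact min_le_left _ _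
  obtain ⟨k0, hk0⟩ := hW e he0 (by linarith)
  refine ⟨max k0 2, fun k hk => ?_⟩
  obtain ⟨n0, hn0⟩ := hk0 k (le_trans (le_max_left _ _) hk)
  have hk2 : 1 < k := lt_of_lt_of_le (by norm_num) (le_trans (le_max_right _ _) hk)
  obtain ⟨n1, hn1⟩ := eventually_atTop.1 (choose_large hk2 2)
  refine ⟨max (max n0 n1) 1, fun n hn => ?_⟩
  have hnn0 : n0 ≤ n := le_trans (le_trans (le_max_left _ _) (le_max_left _ _)) hn
  have hnn1 : n1 ≤ n := le_trans (le_trans (le_max_right _ _) (le_max_left _ _)) hn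
  have hnn2 : 1 ≤ n := le_trans (le_max_right _ _) hn
  have hnr : (0 : ℝ) < n := by exact_mod_cast hnn2
  have hlog : 0 < Real.log 2 := Real.log_pos (by norm_num)
  have hlog1 : Real.log 2 ≤ 1 := by
    have := Real.log_le_sub_one_of_pos (by norm_num : (0 : ℝ) < 2)
    linarith
  have hC := hn1 n hnn1
  rw [pow_one] at hC
  obtain ⟨L, hL⟩ : ∃ L : ℝ, L = (1 - e) * Real.log 2 * n := ⟨_, rfl⟩
  have hL0 : 0 < L := by rw [hL]; exact mul_pos (mul_pos (by linarith) hlog) hnr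
  have hLn : L ≤ n := by
    rw [hL]
    have : (1 - e) * Real.log 2 ≤ 1 := by nlinarith
    calc (1 - e) * Real.log 2 * n ≤ 1 * n := mul_le_mul_of_nonneg_right this hnr.le
      _ = n := one_mul _
  obtain ⟨C, hCd⟩ : ∃ C : ℝ, C = (n.choose k : ℝ) := ⟨_, rfl⟩
  rw [← hCd] at hC
  have hC0 : 0 < C := by linarith
  -- the bias `q`
  obtain ⟨x, hx⟩ : ∃ x : ℝ, x = C / L := ⟨_, rfl⟩
  have hxL : x * L = C := by
    rw [hx, div_mul_cancel₀ _ hL0.ne']
  have hx2 : 2 ≤ x := by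
    rw [hx, le_div_iff₀ hL0]
    linarith
  have hceil : 2 ≤ ⌈x⌉₊ := by
    have h1 := Nat.le_ceil x
    have h2 : (2 : ℝ) ≤ (⌈x⌉₊ : ℝ) := hx2.trans h1
    exact_mod_cast h2
  obtain ⟨q, hq⟩ : ∃ q : ℕ, ⌈x⌉₊ = q + 1 := ⟨⌈x⌉₊ - 1, by omega⟩
  have hq1 : 1 ≤ q := by omega
  have hqx : x ≤ (q : ℝ) + 1 := by
    have h1 := Nat.le_ceil x
    rw [hq] at h1
    exact_mod_cast h1
  have hqx' : (q : ℝ) ≤ x := by
    have h1 := Nat.ceil_lt_add_one (by linarith : 0 ≤ x)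
    rw [hq] at h1
    push_cast at h1
    linarith
  have hwin : ¬ Forces (offerWC q) (fun Y : Finset (Clause n) => ¬ Sat Y) (board n k) ∅ := by
    apply hn0 n hnn0 q
    rw [← hL, ← hCd, ← hxL, mul_comm]
    exact mul_le_mul_of_nonneg_left hqx hL0.le
  have hmem : q ∈ {q : ℕ | 1 ≤ q ∧ ¬ Forces (offerWC q) (fun Y => ¬ Sat Y) (board n k) ∅} :=
    ⟨hq1, hwin⟩
  have hb1 : 1 ≤ bWC n k := (Nat.sInf_mem ⟨_, hmem⟩).1
  have hbq : bWC n k ≤ q := Nat.sInf_le hmem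
  obtain ⟨b, hb⟩ : ∃ b : ℝ, b = (bWC n k : ℝ) := ⟨_, rfl⟩
  have hb0 : 0 < b := by
    rw [hb]
    exact_mod_cast hb1
  have hbx : b ≤ x := by
    rw [hb]
    have : (bWC n k : ℝ) ≤ q := by exact_mod_cast hbq
    linarith
  have hratio : 1 / (n : ℝ) * (n.choose k : ℝ) * ((bWC n k : ℝ))⁻¹ / Real.log 2 =
      (1 - e) * (C / (L * b)) := by
    rw [← hCd, ← hb, hL]
    have h1 : (1 - e) ≠ 0 := by linarith
    field_simp
  rw [hratio]
  have h2 : 1 ≤ C / (L * b) := by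
    rw [le_div_iff₀ (by positivity), one_mul, ← hxL, mul_comm]
    exact mul_le_mul_of_nonneg_right hbx hL0.le
  calc 1 - ε ≤ (1 - e) * 1 := by linarith
    _ ≤ (1 - e) * (C / (L * b)) := mul_le_mul_of_nonneg_left h2 (by linarith)

end Pool.Agent.H186.KS.Win
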