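import Pool.Agent.H186.KS.Abs
import Pool.Agent.H186.KS.Bridge
import Pool.Agent.H186.KS.Orth
import Pool.Agent.H186.KS.Kern
import Pool.Agent.H186.KS.Elb
import Pool.Agent.H186.KS.Dist
import Pool.Agent.H186.KS.Acb
import Pool.Agent.H186.KS.Bin
import Pool.Agent.H186.KS.Pk
import Pool.Agent.H186.KS.Kb
import Pool.Agent.H186.KS.SD
import Pool.Agent.H186.KS.Win
import Pool.Agent.H186.KS.Same
import Pool.Agent.H186.KS.Lim
import Pool.Graph.R_seed8.Results.MP_fefad7_co.SharpUpperHalf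
import Pool.Graph.R_seed8.Results.MP_fefad7_co.ClientWaiterLower

/-!
# The Waiter-Client and Client-Waiter `k`-SAT games: the final estimates
-/

set_option autoImplicit false

open Filter

namespace Pool.Agent.H186.KS.Fin

open Pool.Agent.Y117.SG Pool.Agent.H186.KS

/-- The ratio of Q1 for the Waiter-Client game. -/
noncomputable def ratioWC (n k : ℕ) : ℝ :=
  1 / (n : ℝ) * (n.choose k : ℝ) * ((bWC n k : ℝ))⁻¹ / Real.log 2

/-- The ratio of Q1 for the Client-Waiter game. -/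
noncomputable def ratioCW (n k : ℕ) : ℝ :=
  1 / (n : ℝ) * (n.choose k : ℝ) * ((bCW n k : ℝ))⁻¹ / Real.log 2

theorem win (h1 : S_small) (h2 : S_large) : S_win :=
  Win.s_win Abs.s_abs
    (SD.s_D (Kb.s_kb (Kern.s_kern Bridge.s_bridge Orth.s_orth) Elb.s_elb) Dist.s_dist Bin.s_bin Pk.s_pk h1 h2)
    Acb.s_acb (Kern.s_sum0 Bridge.s_bridge Orth.s_orth)

theorem wc_both (hw : S_win) (ε : ℝ) (hε : 0 < ε) :
    ∃ k0 : ℕ, ∀ k ≥ k0, ∀ᶠ n : ℕ in atTop, |ratioWC n k - 1| ≤ ε := by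
  obtain ⟨k0, hk0⟩ := Win.s_ratio hw ε hε
  refine ⟨max k0 3, fun k hk => ?_⟩
  obtain ⟨n0, hn0⟩ := hk0 k (le_trans (le_max_left _ _) hk)
  filter_upwards [eventually_ge_atTop n0, wc_ratio k (le_trans (le_max_right _ _) hk) ε hε] with n hn hu
  have hl := hn0 n hn
  unfold ratioWC
  rw [abs_le]
  constructor <;> linarith

theorem cw_both (ε : ℝ) (hε : 0 < ε) :
    ∃ k0 : ℕ, ∀ k ≥ k0, ∀ᶠ n : ℕ in atTop, |ratioCW n k - 1| ≤ ε := by
  obtain ⟨k0, hk0⟩ := Pool.Agent.Results.MP_fefad7_co.ClientWaiterLower.result ε hε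
  refine ⟨max k0 2, fun k hk => ?_⟩
  obtain ⟨n0, hn0⟩ := hk0 k (le_trans (le_max_left _ _) hk)
  filter_upwards [eventually_ge_atTop n0, cw_ratio k (le_trans (le_max_right _ _) hk) ε hε] with n hn hu
  have hl := hn0 n hn
  have heq : Pool.Agent.R982.KS.ratioCW n k = ratioCW n k := by
    unfold Pool.Agent.R982.KS.ratioCW ratioCW
    rw [Same.s_same n k]
    ring
  rw [heq] at hl
  unfold ratioCW at hl ⊢
  rw [abs_le]
  constructor <;> linarith

end Pool.Agent.H186.KS.Fin
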