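import Pool.Agent.H186.KS.Spec

/-!
# Task D5: `S_large`
-/

set_option autoImplicit false

open Finset Filter Topology

namespace Pool.Agent.H186.KS.Large

open Pool.Agent.H186.KS

theorem Gf_nonneg (k r : ℕ) {w : ℝ} (hw : 0 ≤ w) : 0 ≤ Gf k r w := by
  unfold Gf
  refine mul_nonneg (by positivity) (Finset.sum_nonneg fun j _ => ?_)
  positivity

theorem Gf_le (k r : ℕ) {w : ℝ} (hw : 0 ≤ w) : Gf k r w ≤ ((1 + w) / 2) ^ k := by
  unfold Gf
  have h1 : ∑ j ∈ Ioc r k, (k.choose j : ℝ) * w ^ j ≤ (1 + w) ^ k := by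
    have h2 : (1 + w) ^ k = ∑ j ∈ range (k + 1), (k.choose j : ℝ) * w ^ j := by
      rw [add_comm, add_pow]
      refine Finset.sum_congr rfl fun j _ => ?_
      rw [one_pow, mul_one, mul_comm]
    rw [h2]
    refine Finset.sum_le_sum_of_subset_of_nonneg ?_ fun j _ _ => by positivity
    intro j hj
    rw [Finset.mem_Ioc] at hj
    rw [Finset.mem_range]
    omega
  calc 1 / 2 ^ k * ∑ j ∈ Ioc r k, (k.choose j : ℝ) * w ^ j ≤ 1 / 2 ^ k * (1 + w) ^ k :=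
        mul_le_mul_of_nonneg_left h1 (by positivity)
    _ = ((1 + w) / 2) ^ k := by rw [div_pow]; ring

theorem exists_wf (k : ℕ) {η : ℝ} (hη : 0 < η) :
    ∃ n0 : ℕ, ∀ n ≥ n0, ∀ x : ℝ, 0 ≤ x → x ≤ 1 → 0 ≤ wf n k x ∧ wf n k x ≤ x + η := by
  have hA : Tendsto (fun n : ℕ => (n : ℝ) / ((n : ℝ) - k)) atTop (𝓝 1) := by
    have h1 : Tendsto (fun n : ℕ => (1 : ℝ) - (k : ℝ) / n) atTop (𝓝 (1 - 0)) :=
      tendsto_const_nhds.sub (tendsto_const_div_atTop_nhds_zero_nat (k : ℝ))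
    have h2 := h1.inv₀ (by norm_num)
    rw [sub_zero, inv_one] at h2
    refine h2.congr' ?_
    filter_upwards [eventually_gt_atTop k] with n hn
    have hn0 : (0 : ℝ) < n := by
      have : 0 < n := by omega
      exact_mod_cast this
    have hnk : (0 : ℝ) < (n : ℝ) - k := by
      have : (k : ℝ) < n := by exact_mod_cast hn
      linarith
    rw [one_sub_div hn0.ne', inv_div]
  have hD : Tendsto (fun n : ℕ => Real.sqrt ((k : ℝ) / n)) atTop (𝓝 0) := by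
    have h1 := (Real.continuous_sqrt.tendsto 0).comp
      (tendsto_const_div_atTop_nhds_zero_nat (k : ℝ))
    rwa [Real.sqrt_zero] at h1
  have hB : Tendsto (fun n : ℕ => ((n : ℝ) / ((n : ℝ) - k) - 1) +
      (n : ℝ) / ((n : ℝ) - k) * Real.sqrt ((k : ℝ) / n)) atTop (𝓝 ((1 - 1) + 1 * 0)) :=
    (hA.sub tendsto_const_nhds).add (hA.mul hD)
  have h3 : (1 - 1 : ℝ) + 1 * 0 < η := by norm_num; exact hη
  obtain ⟨n0, hn0⟩ := eventually_atTop.1 ((hB.eventually (gt_mem_nhds h3)).and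
    (eventually_gt_atTop k))
  refine ⟨n0, fun n hn x hx0 hx1 => ?_⟩
  obtain ⟨h4, h5⟩ := hn0 n hn
  have hn0' : (0 : ℝ) < n := by
    have : 0 < n := by omega
    exact_mod_cast this
  have hnk : (0 : ℝ) < (n : ℝ) - k := by
    have : (k : ℝ) < n := by exact_mod_cast h5
    linarith
  have hA1 : 1 ≤ (n : ℝ) / ((n : ℝ) - k) := by
    rw [le_div_iff₀ hnk]
    have : (0 : ℝ) ≤ k := Nat.cast_nonneg k
    linarith
  have hs : 0 ≤ Real.sqrt ((k : ℝ) / n) := Real.sqrt_nonneg _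
  unfold wf
  refine ⟨by positivity, ?_⟩
  set A := (n : ℝ) / ((n : ℝ) - k)
  set s := Real.sqrt ((k : ℝ) / n)
  have h6 : (A - 1) * x ≤ A - 1 := by nlinarith
  nlinarith

theorem exists_exp {c : ℝ} (hc : 0 < c) :
    ∃ n0 : ℕ, ∀ n ≥ n0, (1 + (n : ℝ) ^ 6) * Real.exp (-(c * n)) ≤ 1 := by
  have h1 : Tendsto (fun n : ℕ => c * (n : ℝ)) atTop atTop :=
    tendsto_natCast_atTop_atTop.const_mul_atTop hc
  have h2 := (Real.tendsto_pow_mul_exp_neg_atTop_nhds_zero 6).comp h1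
  have h3 : Tendsto (fun n : ℕ => Real.exp (-(c * (n : ℝ)))) atTop (𝓝 0) :=
    (Real.tendsto_exp_neg_atTop_nhds_zero).comp h1
  have hc6 : 0 < c ^ 6 / 2 := by positivity
  obtain ⟨n0, hn0⟩ := eventually_atTop.1 ((h2.eventually (gt_mem_nhds hc6)).and
    (h3.eventually (gt_mem_nhds (show (0 : ℝ) < 1 / 2 by norm_num))))
  refine ⟨n0, fun n hn => ?_⟩
  obtain ⟨h4, h5⟩ := hn0 n hn
  simp only [Function.comp_apply] at h4
  have h6 : (n : ℝ) ^ 6 * Real.exp (-(c * n)) ≤ 1 / 2 := by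
    rw [mul_pow] at h4
    have hc6' : 0 < c ^ 6 := by positivity
    have h7 : c ^ 6 * ((n : ℝ) ^ 6 * Real.exp (-(c * n))) < c ^ 6 * (1 / 2) := by
      calc c ^ 6 * ((n : ℝ) ^ 6 * Real.exp (-(c * n))) =
          c ^ 6 * (n : ℝ) ^ 6 * Real.exp (-(c * n)) := by ring
        _ < c ^ 6 / 2 := h4
        _ = c ^ 6 * (1 / 2) := by ring
    exact (lt_of_mul_lt_mul_left h7 hc6'.le).le
  rw [add_mul, one_mul]
  linarith

/-- the final estimate -/
theorem fin_step {n : ℕ} {c v b : ℝ} (h1 : (1 + (n : ℝ) ^ 6) * Real.exp (-(c * n)) ≤ 1)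
    (hv0 : 0 ≤ v) (hvn : v ≤ n) (hb : 0 ≤ b) (h2 : b * Real.exp v ≤ Real.exp (-(c * n))) :
    b * ((1 + (n : ℝ) ^ 4 * v ^ 2) * Real.exp v) ≤ 1 := by
  have h3 : 1 + (n : ℝ) ^ 4 * v ^ 2 ≤ 1 + (n : ℝ) ^ 6 := by
    have h4 : v ^ 2 ≤ (n : ℝ) ^ 2 := pow_le_pow_left₀ hv0 hvn 2
    have h5 : (n : ℝ) ^ 4 * v ^ 2 ≤ (n : ℝ) ^ 4 * (n : ℝ) ^ 2 :=
      mul_le_mul_of_nonneg_left h4 (by positivity)
    calc 1 + (n : ℝ) ^ 4 * v ^ 2 ≤ 1 + (n : ℝ) ^ 4 * (n : ℝ) ^ 2 := by linarith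
      _ = 1 + (n : ℝ) ^ 6 := by ring
  calc b * ((1 + (n : ℝ) ^ 4 * v ^ 2) * Real.exp v)
      = (1 + (n : ℝ) ^ 4 * v ^ 2) * (b * Real.exp v) := by ring
    _ ≤ (1 + (n : ℝ) ^ 6) * (b * Real.exp v) :=
        mul_le_mul_of_nonneg_right h3 (mul_nonneg hb (Real.exp_pos v).le)
    _ ≤ (1 + (n : ℝ) ^ 6) * Real.exp (-(c * n)) :=
        mul_le_mul_of_nonneg_left h2 (by positivity)
    _ ≤ 1 := h1

theorem s_large (h : S_pk) : S_large := by
  intro ε hε0 hε1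
  have hl2 : 0 < Real.log 2 := Real.log_pos (by norm_num)
  have hl2' : Real.log 2 < 1 := by
    have := Real.log_two_lt_d9
    linarith
  -- the choice of `t1`
  obtain ⟨t1, ht0, ht1, hH⟩ : ∃ t1 : ℝ, 0 < t1 ∧ t1 ≤ 1 / 10 ∧
      ∀ t, 0 ≤ t → t ≤ t1 → Real.binEntropy t ≤ ε / 4 * Real.log 2 := by
    have h1 : Tendsto Real.binEntropy (𝓝 0) (𝓝 (Real.binEntropy 0)) :=
      Real.binEntropy_continuous.tendsto 0
    rw [Real.binEntropy_zero] at h1
    have h2 : (0 : ℝ) < ε / 4 * Real.log 2 := by positivity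
    obtain ⟨δ, hδ, h3⟩ := Metric.eventually_nhds_iff.1 (h1.eventually (gt_mem_nhds h2))
    refine ⟨min (δ / 2) (1 / 10), by positivity, min_le_right _ _, fun t ht ht' => ?_⟩
    refine (h3 ?_).le
    rw [Real.dist_eq, sub_zero, abs_of_nonneg ht]
    have := ht'.trans (min_le_left _ _)
    linarith
  obtain ⟨k1, hk1⟩ := h (ε / 32) (by positivity)
  have ht2 : Tendsto (fun k : ℕ => 2 * (1 - t1 / 2) ^ k) atTop (𝓝 (2 * 0)) :=
    (tendsto_pow_atTop_nhds_zero_of_lt_one (by linarith) (by linarith)).const_mul 2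
  rw [mul_zero] at ht2
  obtain ⟨k2, hk2⟩ := eventually_atTop.1
    (ht2.eventually (gt_mem_nhds (show (0 : ℝ) < 1 / 100 by norm_num)))
  refine ⟨max k1 k2, fun k hk => ?_⟩
  have hpk := hk1 k (le_of_max_le_left hk)
  have hkt := (hk2 k (le_of_max_le_right hk)).le
  have hpk0 : 0 ≤ pk k 5 := by
    unfold pk
    positivity
  -- the factor
  have hF0 : 0 ≤ ((1 - pk k 5) ^ 2)⁻¹ := by positivity
  have hF : ((1 - pk k 5) ^ 2)⁻¹ ≤ 1 + ε / 8 := by
    have h1 : (0 : ℝ) < (1 - pk k 5) ^ 2 := by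
      have : 0 < 1 - pk k 5 := by linarith
      positivity
    rw [inv_le_iff_one_le_mul₀ h1]
    have h2 : 1 - 2 * (ε / 32) ≤ (1 - pk k 5) ^ 2 := by nlinarith
    nlinarith
  -- the choice of `η`
  obtain ⟨η, hη0, hη1, hη2⟩ : ∃ η : ℝ, 0 < η ∧ η ≤ t1 ∧ (1 + η / 2) ^ k ≤ 1 + ε / 8 := by
    have h1 : Tendsto (fun η : ℝ => (1 + η / 2) ^ k) (𝓝 0) (𝓝 ((1 + 0 / 2) ^ k)) := by
      have : Continuous (fun η : ℝ => (1 + η / 2) ^ k) := by fun_prop
      exact this.tendsto 0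
    have h2 : ((1 : ℝ) + 0 / 2) ^ k < 1 + ε / 8 := by
      rw [zero_div, add_zero, one_pow]
      linarith
    obtain ⟨δ, hδ, h3⟩ := Metric.eventually_nhds_iff.1 (h1.eventually (gt_mem_nhds h2))
    refine ⟨min (δ / 2) t1, by positivity, min_le_right _ _, (h3 ?_).le⟩
    rw [Real.dist_eq, sub_zero, abs_of_pos (by positivity)]
    have := min_le_left (δ / 2) t1
    linarith
  obtain ⟨n1, hn1⟩ := exists_wf k hη0
  obtain ⟨n2, hn2⟩ := exists_exp (c := ε / 4 * Real.log 2) (by positivity)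
  obtain ⟨n3, hn3⟩ := exists_exp (c := 1 / 100) (by norm_num)
  refine ⟨max n1 (max n2 n3), fun n hn x b hx0 hx1 hb0 hb1 hb2 => ?_⟩
  obtain ⟨hw0, hw1⟩ := hn1 n (le_of_max_le_left hn) x (by linarith) hx1
  have h2 := hn2 n (le_of_max_le_left (le_of_max_le_right hn))
  have h3 := hn3 n (le_of_max_le_right (le_of_max_le_right hn))
  have hG0 := Gf_nonneg k 5 hw0
  have hG1 := Gf_le k 5 hw0
  have hn0 : (0 : ℝ) ≤ n := Nat.cast_nonneg n
  have hg0 : 0 ≤ gf ε n k x := by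
    unfold gf
    have : 0 ≤ 1 - ε := by linarith
    positivity
  by_cases hx : 1 - 2 * t1 ≤ x
  · -- large `x`
    have hG2 : Gf k 5 (wf n k x) ≤ 1 + ε / 8 := by
      refine hG1.trans (le_trans (pow_le_pow_left₀ (by positivity) ?_ k) hη2)
      linarith
    have hgle : gf ε n k x ≤ (1 - ε / 2) * Real.log 2 * n := by
      unfold gf
      have h4 : ((1 - pk k 5) ^ 2)⁻¹ * Gf k 5 (wf n k x) ≤ (1 + ε / 8) * (1 + ε / 8) :=
        mul_le_mul hF hG2 hG0 (by linarith)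
      have h5 : (1 - ε) * ((1 + ε / 8) * (1 + ε / 8)) ≤ 1 - ε / 2 := by nlinarith [pow_pos hε0 3, pow_pos hε0 2]
      have h6 : 0 ≤ Real.log 2 * n := by positivity
      calc (1 - ε) * Real.log 2 * n * ((1 - pk k 5) ^ 2)⁻¹ * Gf k 5 (wf n k x)
          = (1 - ε) * (((1 - pk k 5) ^ 2)⁻¹ * Gf k 5 (wf n k x)) * (Real.log 2 * n) := by ring
        _ ≤ (1 - ε) * ((1 + ε / 8) * (1 + ε / 8)) * (Real.log 2 * n) :=
            mul_le_mul_of_nonneg_right (mul_le_mul_of_nonneg_left h4 (by linarith)) h6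
        _ ≤ (1 - ε / 2) * (Real.log 2 * n) := mul_le_mul_of_nonneg_right h5 h6
        _ = (1 - ε / 2) * Real.log 2 * n := by ring
    have hHx : Real.binEntropy ((1 - x) / 2) ≤ ε / 4 * Real.log 2 :=
      hH _ (by linarith) (by linarith)
    refine fin_step h2 hg0 ?_ hb0 ?_
    · refine hgle.trans ?_
      have : (1 - ε / 2) * Real.log 2 ≤ 1 := by nlinarith
      nlinarith
    · calc b * Real.exp (gf ε n k x) ≤
          Real.exp (-(n * (Real.log 2 - Real.binEntropy ((1 - x) / 2)))) *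
            Real.exp ((1 - ε / 2) * Real.log 2 * n) :=
            mul_le_mul hb2 (Real.exp_le_exp.2 hgle) (Real.exp_pos _).le (Real.exp_pos _).le
        _ = Real.exp (-(n * (Real.log 2 - Real.binEntropy ((1 - x) / 2))) +
            (1 - ε / 2) * Real.log 2 * n) := by rw [← Real.exp_add]
        _ ≤ Real.exp (-(ε / 4 * Real.log 2 * n)) := by
            apply Real.exp_le_exp.2
            have h7 := mul_le_mul_of_nonneg_left hHx hn0
            linarith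
  · push Not at hx
    have hG2 : Gf k 5 (wf n k x) ≤ (1 - t1 / 2) ^ k := by
      refine hG1.trans (pow_le_pow_left₀ (by positivity) ?_ k)
      linarith
    have hP0 : 0 ≤ (1 - t1 / 2) ^ k := pow_nonneg (by linarith) k
    have hgle : gf ε n k x ≤ 1 / 100 * n := by
      unfold gf
      have h4 : ((1 - pk k 5) ^ 2)⁻¹ * Gf k 5 (wf n k x) ≤ 2 * (1 - t1 / 2) ^ k :=
        mul_le_mul (hF.trans (by linarith)) hG2 hG0 (by norm_num)
      have h5 : (1 - ε) * Real.log 2 ≤ 1 := by nlinarith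
      have h6 : 0 ≤ ((1 - pk k 5) ^ 2)⁻¹ * Gf k 5 (wf n k x) := mul_nonneg hF0 hG0
      calc (1 - ε) * Real.log 2 * n * ((1 - pk k 5) ^ 2)⁻¹ * Gf k 5 (wf n k x)
          = ((1 - ε) * Real.log 2) * (((1 - pk k 5) ^ 2)⁻¹ * Gf k 5 (wf n k x)) * n := by ring
        _ ≤ 1 * (((1 - pk k 5) ^ 2)⁻¹ * Gf k 5 (wf n k x)) * n :=
            mul_le_mul_of_nonneg_right (mul_le_mul_of_nonneg_right h5 h6) hn0
        _ ≤ 1 * (1 / 100) * n :=
            mul_le_mul_of_nonneg_right (mul_le_mul_of_nonneg_left (h4.trans hkt) zero_le_one) hn0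
        _ = 1 / 100 * n := by ring
    refine fin_step h3 hg0 ?_ hb0 ?_
    · refine hgle.trans ?_
      linarith
    · calc b * Real.exp (gf ε n k x) ≤ Real.exp (-(n * x ^ 2 / 2)) * Real.exp (1 / 100 * n) :=
            mul_le_mul hb1 (Real.exp_le_exp.2 hgle) (Real.exp_pos _).le (Real.exp_pos _).le
        _ = Real.exp (-(n * x ^ 2 / 2) + 1 / 100 * n) := by rw [← Real.exp_add]
        _ ≤ Real.exp (-(1 / 100 * n)) := by
            apply Real.exp_le_exp.2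
            have h7 : (1 / 5 : ℝ) ^ 2 ≤ x ^ 2 := pow_le_pow_left₀ (by norm_num) hx0 2
            have h8 : (n : ℝ) * (1 / 5 : ℝ) ^ 2 ≤ n * x ^ 2 := mul_le_mul_of_nonneg_left h7 hn0
            linarith

end Pool.Agent.H186.KS.Large
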