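import Pool.Agent.H186.KS.Spec

/-!
# The one-variable estimate for small `x`
-/

set_option autoImplicit false

open Finset Filter

namespace Pool.Agent.H186.KS.Small

open Pool.Agent.H186.KS

theorem pk_nonneg (k r : ℕ) : 0 ≤ pk k r := by
  unfold pk
  exact mul_nonneg (by positivity) (Finset.sum_nonneg fun _ _ => by positivity)

theorem Gf_nonneg (k r : ℕ) {w : ℝ} (hw : 0 ≤ w) : 0 ≤ Gf k r w := by
  unfold Gf
  exact mul_nonneg (by positivity) (Finset.sum_nonneg fun _ _ => by positivity)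

theorem Gf_le (k : ℕ) {w : ℝ} (hw : 0 ≤ w) (hw1 : w ≤ 1) : Gf k 5 w ≤ w ^ 6 := by
  unfold Gf
  have h1 : ∑ j ∈ Ioc 5 k, (k.choose j : ℝ) * w ^ j ≤ ∑ j ∈ Ioc 5 k, (k.choose j : ℝ) * w ^ 6 := by
    refine Finset.sum_le_sum fun j hj => ?_
    rw [Finset.mem_Ioc] at hj
    exact mul_le_mul_of_nonneg_left (pow_le_pow_of_le_one hw hw1 (by omega)) (by positivity)
  have h2 : ∑ j ∈ Ioc 5 k, (k.choose j : ℝ) ≤ 2 ^ k := by
    have h3 : ∑ j ∈ Ioc 5 k, k.choose j ≤ ∑ j ∈ range (k + 1), k.choose j := by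
      refine Finset.sum_le_sum_of_subset fun j hj => ?_
      rw [Finset.mem_Ioc] at hj
      rw [Finset.mem_range]
      omega
    rw [Nat.sum_range_choose] at h3
    exact_mod_cast h3
  rw [← Finset.sum_mul] at h1
  have h4 : (0 : ℝ) < 2 ^ k := by positivity
  have h5 : (0 : ℝ) ≤ w ^ 6 := by positivity
  calc 1 / 2 ^ k * ∑ j ∈ Ioc 5 k, (k.choose j : ℝ) * w ^ j
      ≤ 1 / 2 ^ k * ((∑ j ∈ Ioc 5 k, (k.choose j : ℝ)) * w ^ 6) :=
        mul_le_mul_of_nonneg_left h1 (by positivity)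
    _ ≤ 1 / 2 ^ k * (2 ^ k * w ^ 6) :=
        mul_le_mul_of_nonneg_left (mul_le_mul_of_nonneg_right h2 h5) (by positivity)
    _ = w ^ 6 := by field_simp

theorem pow_six {a b : ℝ} (ha : 0 ≤ a) (hb : 0 ≤ b) : (a + b) ^ 6 ≤ 32 * (a ^ 6 + b ^ 6) := by
  have h := add_pow_le ha hb 6
  norm_num at h
  exact h

theorem s_small : S_small := by
  intro ε k hε hε1 hpk
  refine ⟨Real.exp 1 * (1 + 1922 * (k : ℝ) ^ 6 + 1922 * (4096 * 720)), 100 * (k + 1) ^ 2, ?_⟩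
  intro n hn x hx hx5
  have hk0 : (0 : ℝ) ≤ k := Nat.cast_nonneg k
  have hn' : 100 * ((k : ℝ) + 1) ^ 2 ≤ n := by exact_mod_cast hn
  have hn0 : (0 : ℝ) < n := by
    have : 0 < 100 * ((k : ℝ) + 1) ^ 2 := by positivity
    linarith
  have hkn : (k : ℝ) ≤ n / 100 := by nlinarith
  have hq : (k : ℝ) / n ≤ 1 / 100 := by
    rw [div_le_iff₀ hn0]
    linarith
  have hq0 : 0 ≤ (k : ℝ) / n := by positivity
  -- `δ`
  obtain ⟨δ, hδ⟩ : ∃ δ : ℝ, δ = Real.sqrt ((k : ℝ) / n) := ⟨_, rfl⟩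
  have hδ0 : 0 ≤ δ := by rw [hδ]; exact Real.sqrt_nonneg _
  have hδ2 : δ ^ 2 = (k : ℝ) / n := by rw [hδ]; exact Real.sq_sqrt hq0
  have hδ1 : δ ≤ 1 / 10 := by nlinarith
  -- `A`
  obtain ⟨A, hA⟩ : ∃ A : ℝ, A = (n : ℝ) / ((n : ℝ) - k) := ⟨_, rfl⟩
  have hnk : 0 < (n : ℝ) - k := by linarith
  have hA0 : 0 ≤ A := by rw [hA]; positivity
  have hA1 : A ≤ 100 / 99 := by
    rw [hA, div_le_div_iff₀ hnk (by norm_num)]
    linarith
  have hA6 : A ^ 6 ≤ 11 / 10 := by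
    calc A ^ 6 ≤ (100 / 99 : ℝ) ^ 6 := pow_le_pow_left₀ hA0 hA1 6
      _ ≤ 11 / 10 := by norm_num
  have hwf : wf n k x = A * (x + δ) := by rw [hA, hδ]; rfl
  have hw0 : 0 ≤ wf n k x := by rw [hwf]; positivity
  have hw1 : wf n k x ≤ 1 := by
    rw [hwf]
    calc A * (x + δ) ≤ 100 / 99 * (1 / 5 + 1 / 10) :=
          mul_le_mul hA1 (by linarith) (by positivity) (by norm_num)
      _ ≤ 1 := by norm_num
  -- the bound for `Gf`
  have hG0 := Gf_nonneg k 5 hw0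
  have hG : Gf k 5 (wf n k x) ≤ 176 / 5 * (x ^ 6 + ((k : ℝ) / n) ^ 3) := by
    refine (Gf_le k hw0 hw1).trans ?_
    rw [hwf, mul_pow, ← hδ2]
    calc A ^ 6 * (x + δ) ^ 6 ≤ 11 / 10 * (32 * (x ^ 6 + δ ^ 6)) :=
          mul_le_mul hA6 (pow_six hx hδ0) (by positivity) (by norm_num)
      _ = 176 / 5 * (x ^ 6 + (δ ^ 2) ^ 3) := by ring
  -- the bound for `gf`
  have hlog : Real.log 2 ≤ 7 / 10 := by
    have := Real.log_two_lt_d9
    linarith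
  have hlog0 : 0 ≤ Real.log 2 := Real.log_nonneg (by norm_num)
  have hp0 := pk_nonneg k 5
  have hinv : ((1 - pk k 5) ^ 2)⁻¹ ≤ 100 / 81 := by
    have h1 : (81 / 100 : ℝ) ≤ (1 - pk k 5) ^ 2 := by nlinarith
    calc ((1 - pk k 5) ^ 2)⁻¹ ≤ (81 / 100 : ℝ)⁻¹ := inv_anti₀ (by norm_num) h1
      _ = 100 / 81 := by norm_num
  have hinv0 : 0 ≤ ((1 - pk k 5) ^ 2)⁻¹ := by positivity
  have hc : (1 - ε) * Real.log 2 * n * ((1 - pk k 5) ^ 2)⁻¹ ≤ 70 / 81 * n := by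
    have h1 : (1 - ε) * Real.log 2 ≤ 1 * (7 / 10) :=
      mul_le_mul (by linarith) hlog hlog0 (by norm_num)
    have h2 : (1 - ε) * Real.log 2 * n ≤ 1 * (7 / 10) * n :=
      mul_le_mul_of_nonneg_right h1 hn0.le
    calc (1 - ε) * Real.log 2 * n * ((1 - pk k 5) ^ 2)⁻¹ ≤ (1 * (7 / 10) * n) * (100 / 81) :=
          mul_le_mul h2 hinv hinv0 (by positivity)
      _ = 70 / 81 * n := by ring
  have hc0 : 0 ≤ (1 - ε) * Real.log 2 * n * ((1 - pk k 5) ^ 2)⁻¹ := by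
    have : 0 ≤ 1 - ε := by linarith
    positivity
  have hg0 : 0 ≤ gf ε n k x := by
    unfold gf
    exact mul_nonneg hc0 hG0
  have hs0 : 0 ≤ x ^ 6 + ((k : ℝ) / n) ^ 3 := by positivity
  have hg : gf ε n k x ≤ 31 * n * (x ^ 6 + ((k : ℝ) / n) ^ 3) := by
    unfold gf
    calc (1 - ε) * Real.log 2 * n * ((1 - pk k 5) ^ 2)⁻¹ * Gf k 5 (wf n k x)
        ≤ 70 / 81 * n * (176 / 5 * (x ^ 6 + ((k : ℝ) / n) ^ 3)) :=
          mul_le_mul hc hG hG0 (by positivity)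
      _ = (70 / 81 * (176 / 5)) * (n * (x ^ 6 + ((k : ℝ) / n) ^ 3)) := by ring
      _ ≤ 31 * (n * (x ^ 6 + ((k : ℝ) / n) ^ 3)) :=
          mul_le_mul_of_nonneg_right (by norm_num) (by positivity)
      _ = _ := by ring
  -- `t = n x²`
  obtain ⟨t, ht⟩ : ∃ t : ℝ, t = n * x ^ 2 := ⟨_, rfl⟩
  have ht0 : 0 ≤ t := by rw [ht]; positivity
  have hx2 : x ^ 2 ≤ 1 / 25 := by nlinarith
  have hx4 : x ^ 4 ≤ 1 / 625 := by
    have : x ^ 4 = x ^ 2 * x ^ 2 := by ring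
    rw [this]
    calc x ^ 2 * x ^ 2 ≤ 1 / 25 * (1 / 25) := mul_le_mul hx2 hx2 (by positivity) (by norm_num)
      _ = 1 / 625 := by norm_num
  have hk3 : 31 * n * ((k : ℝ) / n) ^ 3 ≤ 1 := by
    have h1 : 31 * n * ((k : ℝ) / n) ^ 3 = 31 * (k : ℝ) ^ 3 / n ^ 2 := by
      field_simp
    rw [h1, div_le_one (by positivity)]
    have h2 : (100 * ((k : ℝ) + 1) ^ 2) ^ 2 ≤ (n : ℝ) ^ 2 := pow_le_pow_left₀ (by positivity) hn' 2
    have h3 : 31 * (k : ℝ) ^ 3 ≤ (100 * ((k : ℝ) + 1) ^ 2) ^ 2 := by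
      have h4 : (k : ℝ) ^ 3 ≤ ((k : ℝ) + 1) ^ 3 := pow_le_pow_left₀ hk0 (by linarith) 3
      have h5 : ((k : ℝ) + 1) ^ 3 ≤ ((k : ℝ) + 1) ^ 4 :=
        pow_le_pow_right₀ (by linarith) (by norm_num)
      nlinarith [show (0 : ℝ) ≤ ((k : ℝ) + 1) ^ 4 by positivity]
    linarith
  have hg1 : gf ε n k x ≤ t / 20 + 1 := by
    have h1 : x ^ 6 ≤ x ^ 2 / 625 := by
      have : x ^ 6 = x ^ 2 * x ^ 4 := by ring
      rw [this]
      nlinarith [sq_nonneg x]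
    have h2 : 31 * n * x ^ 6 ≤ 31 * n * (x ^ 2 / 625) :=
      mul_le_mul_of_nonneg_left h1 (by positivity)
    have h3 : 31 * n * (x ^ 2 / 625) ≤ t / 20 := by
      rw [ht]
      nlinarith [show 0 ≤ n * x ^ 2 by positivity]
    calc gf ε n k x ≤ 31 * n * (x ^ 6 + ((k : ℝ) / n) ^ 3) := hg
      _ = 31 * n * x ^ 6 + 31 * n * ((k : ℝ) / n) ^ 3 := by ring
      _ ≤ t / 20 + 1 := by linarith
  have hg2 : (n : ℝ) ^ 4 * gf ε n k x ^ 2 ≤ 1922 * (t ^ 6 + (k : ℝ) ^ 6) := by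
    have h1 : gf ε n k x ^ 2 ≤ (31 * n * (x ^ 6 + ((k : ℝ) / n) ^ 3)) ^ 2 :=
      pow_le_pow_left₀ hg0 hg 2
    have h2 : (x ^ 6 + ((k : ℝ) / n) ^ 3) ^ 2 ≤ 2 * (x ^ 12 + ((k : ℝ) / n) ^ 6) := by
      nlinarith [sq_nonneg (x ^ 6 - ((k : ℝ) / n) ^ 3)]
    calc (n : ℝ) ^ 4 * gf ε n k x ^ 2
        ≤ (n : ℝ) ^ 4 * (31 * n * (x ^ 6 + ((k : ℝ) / n) ^ 3)) ^ 2 :=
          mul_le_mul_of_nonneg_left h1 (by positivity)
      _ = 961 * (n : ℝ) ^ 6 * (x ^ 6 + ((k : ℝ) / n) ^ 3) ^ 2 := by ring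
      _ ≤ 961 * (n : ℝ) ^ 6 * (2 * (x ^ 12 + ((k : ℝ) / n) ^ 6)) :=
          mul_le_mul_of_nonneg_left h2 (by positivity)
      _ = 1922 * (t ^ 6 + (k : ℝ) ^ 6) := by
          rw [ht, div_pow]
          field_simp
          ring
  -- the conclusion
  have he1 : Real.exp (-(n * x ^ 2 / 2)) * Real.exp (gf ε n k x) ≤
      Real.exp 1 * Real.exp (-(t / 4)) := by
    rw [← Real.exp_add, ← Real.exp_add]
    apply Real.exp_le_exp.2
    rw [← ht]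
    linarith
  have he2 : t ^ 6 * Real.exp (-(t / 4)) ≤ 4096 * 720 := by
    have h1 := Real.pow_div_factorial_le_exp (t / 4) (by positivity) 6
    have h2 : ((Nat.factorial 6 : ℕ) : ℝ) = 720 := by norm_num [Nat.factorial]
    rw [h2, div_le_iff₀ (by norm_num)] at h1
    have h3 : t ^ 6 = 4096 * (t / 4) ^ 6 := by ring
    rw [h3, Real.exp_neg]
    have h4 := Real.exp_pos (t / 4)
    rw [← div_eq_mul_inv, div_le_iff₀ h4]
    linarith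
  have he3 : Real.exp (-(t / 4)) ≤ 1 := by
    rw [← Real.exp_zero]
    exact Real.exp_le_exp.2 (by linarith)
  have he4 := Real.exp_pos (-(t / 4))
  calc Real.exp (-(n * x ^ 2 / 2)) * ((1 + (n : ℝ) ^ 4 * gf ε n k x ^ 2) * Real.exp (gf ε n k x))
      = (1 + (n : ℝ) ^ 4 * gf ε n k x ^ 2) *
          (Real.exp (-(n * x ^ 2 / 2)) * Real.exp (gf ε n k x)) := by ring
    _ ≤ (1 + 1922 * (t ^ 6 + (k : ℝ) ^ 6)) * (Real.exp 1 * Real.exp (-(t / 4))) :=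
        mul_le_mul (by linarith) he1 (by positivity) (by positivity)
    _ = Real.exp 1 * ((1 + 1922 * (k : ℝ) ^ 6) * Real.exp (-(t / 4)) +
          1922 * (t ^ 6 * Real.exp (-(t / 4)))) := by ring
    _ ≤ Real.exp 1 * ((1 + 1922 * (k : ℝ) ^ 6) * 1 + 1922 * (4096 * 720)) := by
        apply mul_le_mul_of_nonneg_left _ (Real.exp_pos 1).le
        have h1 : (1 + 1922 * (k : ℝ) ^ 6) * Real.exp (-(t / 4)) ≤ (1 + 1922 * (k : ℝ) ^ 6) * 1 :=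
          mul_le_mul_of_nonneg_left he3 (by positivity)
        linarith
    _ = _ := by ring

end Pool.Agent.H186.KS.Small
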